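import Pool.Agent.TH130.Coh
import Pool.Agent.H835R5.T.Spl

/-!
# Vanishing of the first cohomology of the structure sheaf of affine open subschemes
-/

set_option autoImplicit false

open CategoryTheory AlgebraicGeometry TopologicalSpace Opposite Limits Abelian
open Pool.Agent.H835R5.Spl (rh rs_eq rh_rh exists_surj)

namespace Pool.Agent.TH130

attribute [local instance high] hshT hwT hextT

/-- the additive presheaf of a presheaf of commutative rings -/
noncomputable def addPre {T : TopCat.{0}} (R : TopCat.Presheaf CommRingCat.{0} T) :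
    TopCat.Presheaf AddCommGrpCat.{0} T where
  obj U := AddCommGrpCat.of (R.obj U)
  map i := AddCommGrpCat.ofHom ((R.map i).hom : _ →+ _)
  map_id U := by
    ext u
    exact congrArg (fun φ => φ.hom u) (R.map_id U)
  map_comp i j := by
    ext u
    exact congrArg (fun φ => φ.hom u) (R.map_comp i j)

lemma addPre_isSheaf {T : TopCat.{0}} (R : TopCat.Presheaf CommRingCat.{0} T) (h : R.IsSheaf) :
    (addPre R).IsSheaf := by
  rw [TopCat.Presheaf.isSheaf_iff_isSheafUniqueGluing]
  intro ι U sf hsf
  let sf' : ∀ i, R.obj (op (U i)) := fun i => sf i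
  let S : TopCat.Sheaf CommRingCat.{0} T := ⟨R, h⟩
  have h' : TopCat.Presheaf.IsCompatible S.obj U sf' := fun i j => hsf i j
  exact TopCat.Sheaf.existsUnique_gluing S U sf' h'

/-- the additive sheaf of a sheaf of commutative rings -/
noncomputable def addSh {T : TopCat.{0}} (R : TopCat.Presheaf CommRingCat.{0} T) (h : R.IsSheaf) :
    ShT T := ⟨addPre R, addPre_isSheaf R h⟩

/-- the additive group of the structure sheaf -/
noncomputable abbrev OX (X : Scheme.{0}) : ShT X.toTopCat := addSh X.presheaf X.sheaf.2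

/-- splitting a section over an intersection of two basic opens -/
lemma exists_split {X : Scheme.{0}} {W : X.Opens} (hW : IsAffineOpen W) (f g : Γ(X, W))
    (hfg : IsCoprime f g) (c : Γ(X, X.basicOpen f ⊓ X.basicOpen g)) :
    ∃ (a : Γ(X, X.basicOpen f)) (b : Γ(X, X.basicOpen g)),
      c = rh (inf_le_left : X.basicOpen f ⊓ X.basicOpen g ≤ X.basicOpen f) a +
        rh (inf_le_right : X.basicOpen f ⊓ X.basicOpen g ≤ X.basicOpen g) b := by
  have e : X.basicOpen (f * g) = X.basicOpen f ⊓ X.basicOpen g := X.basicOpen_mul _ _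
  have hle : X.basicOpen f ⊓ X.basicOpen g ≤ W := inf_le_left.trans (X.basicOpen_le f)
  have hle1 : X.basicOpen f ⊓ X.basicOpen g ≤ X.basicOpen (f * g) := e.ge
  have hle2 : X.basicOpen (f * g) ≤ X.basicOpen f ⊓ X.basicOpen g := e.le
  obtain ⟨n, r, hr⟩ := exists_surj hW (f * g) (rh hle2 c)
  have hr' : c * (rh hle f) ^ n * (rh hle g) ^ n = rh hle r := by
    have h1 := congrArg (rh hle1) hr
    rw [map_mul, map_pow, rh_rh, rh_rh, rh_rh] at h1
    have h2 : rh (hle1.trans hle2) c = c := by
      change (X.presheaf.map (𝟙 _)).hom c = c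
      rw [X.presheaf.map_id]
      rfl
    rw [h2, map_mul, mul_pow, ← mul_assoc] at h1
    exact h1
  obtain ⟨α, β, hαβ⟩ := (hfg.pow (m := n) (n := n))
  have huf : IsUnit (rh (X.basicOpen_le f) f) := X.toRingedSpace.isUnit_res_basicOpen f
  have hug : IsUnit (rh (X.basicOpen_le g) g) := X.toRingedSpace.isUnit_res_basicOpen g
  obtain ⟨fi, hfi⟩ := huf.exists_right_inv
  obtain ⟨gi, hgi⟩ := hug.exists_right_inv
  have hfi' : rh hle f * rh inf_le_left fi = 1 := by
    have h1 := congrArg (rh (inf_le_left : X.basicOpen f ⊓ X.basicOpen g ≤ X.basicOpen f)) hfi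
    rw [map_mul, map_one, rh_rh] at h1
    exact h1
  have hgi' : rh hle g * rh inf_le_right gi = 1 := by
    have h1 := congrArg (rh (inf_le_right : X.basicOpen f ⊓ X.basicOpen g ≤ X.basicOpen g)) hgi
    rw [map_mul, map_one, rh_rh] at h1
    exact h1
  refine ⟨rh (X.basicOpen_le f) (β * r) * fi ^ n, rh (X.basicOpen_le g) (α * r) * gi ^ n, ?_⟩
  have h3 : rh hle α * (rh hle f) ^ n + rh hle β * (rh hle g) ^ n = 1 := by
    rw [← map_pow, ← map_pow, ← map_mul, ← map_mul, ← map_add, hαβ, map_one]
  simp only [map_mul, map_pow, rh_rh]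
  have h4 : (rh hle f) ^ n * (rh inf_le_left fi) ^ n = 1 := by rw [← mul_pow, hfi', one_pow]
  have h5 : (rh hle g) ^ n * (rh inf_le_right gi) ^ n = 1 := by rw [← mul_pow, hgi', one_pow]
  have h6 : rh hle r * (rh inf_le_left fi) ^ n = c * (rh hle g) ^ n := by
    rw [← hr']; linear_combination (c * (rh hle g) ^ n) * h4
  have h7 : rh hle r * (rh inf_le_right gi) ^ n = c * (rh hle f) ^ n := by
    rw [← hr']; linear_combination (c * (rh hle f) ^ n) * h5
  have h8 : c = rh hle β * (rh hle r * (rh inf_le_left fi) ^ n) +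
      rh hle α * (rh hle r * (rh inf_le_right gi) ^ n) := by
    rw [h6, h7]; linear_combination (-c) * h3
  rw [← mul_assoc, ← mul_assoc] at h8
  exact h8

/-- restriction of a class to a smaller open -/
noncomputable def rk {X : Scheme.{0}} {U V : X.Opens} (h : V ≤ U) (κ : HU (OX X) U) : HU (OX X) V :=
  resU (homOfLE h) κ

lemma rk_rk {X : Scheme.{0}} {U V W : X.Opens} (h : V ≤ U) (h' : W ≤ V) (κ : HU (OX X) U) :
    rk h' (rk h κ) = rk (h'.trans h) κ := resU_resU _ _ _

lemma rk_zero {X : Scheme.{0}} {U V : X.Opens} (h : V ≤ U) : rk h (0 : HU (OX X) U) = 0 :=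
  resU_zero _

lemma exists_split' {X : Scheme.{0}} {W : X.Opens} (hW : IsAffineOpen W) (f g : Γ(X, W))
    (hfg : IsCoprime f g) (c : (OX X).obj.obj (op (X.basicOpen f ⊓ X.basicOpen g))) :
    ∃ (a : (OX X).obj.obj (op (X.basicOpen f))) (b : (OX X).obj.obj (op (X.basicOpen g))),
      c = (OX X).obj.map (homOfLE (inf_le_left : X.basicOpen f ⊓ X.basicOpen g ≤ _)).op a +
        (OX X).obj.map (homOfLE (inf_le_right : X.basicOpen f ⊓ X.basicOpen g ≤ _)).op b :=
  exists_split hW f g hfg c

/-- two basic opens -/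
lemma vanish_two {X : Scheme.{0}} {W : X.Opens} (hW : IsAffineOpen W) (f g : Γ(X, W))
    (hfg : IsCoprime f g) (hc : X.basicOpen f ⊔ X.basicOpen g = W) (κ : HU (OX X) W)
    (h₁ : rk (X.basicOpen_le f) κ = 0) (h₂ : rk (X.basicOpen_le g) κ = 0) : κ = 0 :=
  eq_zero_of_split (F := OX X) (X.basicOpen f) (X.basicOpen g) hc (exists_split' hW f g hfg) κ
    (homOfLE (X.basicOpen_le f)) (homOfLE (X.basicOpen_le g)) h₁ h₂

/-- **The first cohomology of the structure sheaf over an affine open vanishes.** -/
theorem affine_vanish {X : Scheme.{0}} {D : X.Opens} (hD : IsAffineOpen D) (κ : HU (OX X) D) :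
    κ = 0 := by
  -- the ideal of the sections `f` such that `κ` vanishes on `D(f)`
  let J : Ideal Γ(X, D) :=
    { carrier := {f | rk (X.basicOpen_le f) κ = 0}
      zero_mem' := by
        have h0 : X.basicOpen (0 : Γ(X, D)) = ⊥ := X.basicOpen_zero D
        have h2 : ∀ (V : X.Opens) (hV : V = ⊥) (x : HU (OX X) V), x = 0 := by
          intro V hV x
          subst hV
          exact eq_zero_of_bot x
        exact h2 _ h0 _
      add_mem' := by
        intro f g hf hg
        change rk _ κ = 0 at hf hg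
        change rk (X.basicOpen_le (f + g)) κ = 0
        set W := X.basicOpen (f + g) with hWdef
        have hWle : W ≤ D := X.basicOpen_le (f + g)
        have hWaff : IsAffineOpen W := hD.basicOpen (f + g)
        have hsum : IsUnit (rh hWle f + rh hWle g) := by
          rw [← map_add]
          exact X.toRingedSpace.isUnit_res_basicOpen (f + g)
        have e1 : X.basicOpen (rh hWle f) = W ⊓ X.basicOpen f := X.basicOpen_res f _
        have e2 : X.basicOpen (rh hWle g) = W ⊓ X.basicOpen g := X.basicOpen_res g _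
        refine vanish_two hWaff (rh hWle f) (rh hWle g) ?_ ?_ _ ?_ ?_
        · obtain ⟨u, hu⟩ := hsum.exists_left_inv
          exact ⟨u, u, by rw [← mul_add, hu]⟩
        · rw [e1, e2, ← inf_sup_left]
          exact inf_eq_left.2 (X.basicOpen_add_le f g)
        · rw [rk_rk]
          have h3 := congrArg (rk (show X.basicOpen (rh hWle f) ≤ X.basicOpen f from
            e1.le.trans inf_le_right)) hf
          rw [rk_rk, rk_zero] at h3
          exact h3
        · rw [rk_rk]
          have h3 := congrArg (rk (show X.basicOpen (rh hWle g) ≤ X.basicOpen g from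
            e2.le.trans inf_le_right)) hg
          rw [rk_rk, rk_zero] at h3
          exact h3
      smul_mem' := by
        intro r f hf
        change rk _ κ = 0 at hf
        change rk (X.basicOpen_le (r * f)) κ = 0
        have h1 : X.basicOpen (r * f) ≤ X.basicOpen f := by
          rw [X.basicOpen_mul]; exact inf_le_right
        have h3 := congrArg (rk h1) hf
        rw [rk_rk, rk_zero] at h3
        exact h3 }
  have hJ : Ideal.span (J : Set Γ(X, D)) = ⊤ := by
    rw [← hD.self_le_iSup_basicOpen_iff]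
    intro p hp
    obtain ⟨V, i, hpV, hV⟩ := local_trivial (OX X) D κ p hp
    obtain ⟨f, hf, hpf⟩ := hD.exists_basicOpen_le (V := V) ⟨p, hpV⟩ hp
    have hfJ : f ∈ J := by
      change rk _ κ = 0
      have h3 : rk i.le κ = 0 := hV
      have h4 := congrArg (rk hf) h3
      rw [rk_rk, rk_zero] at h4
      exact h4
    exact Opens.mem_iSup.2 ⟨⟨f, hfJ⟩, hpf⟩
  rw [Ideal.span_eq] at hJ
  have h1 : (1 : Γ(X, D)) ∈ J := by rw [hJ]; trivial
  have h2 : rk (X.basicOpen_le (1 : Γ(X, D))) κ = 0 := h1
  have h3 : X.basicOpen (1 : Γ(X, D)) = D := X.basicOpen_of_isUnit isUnit_one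
  have h4 := congrArg (rk h3.ge) h2
  rw [rk_rk, rk_zero] at h4
  exact (resU_id κ).symm.trans h4

end Pool.Agent.TH130
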