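import Pool.Agent.TH130.Coh0

/-!
# First cohomology of abelian sheaves on opens of a topological space

Local triviality of classes and the Mayer-Vietoris sequence in degrees 0 and 1.
-/

set_option autoImplicit false

open CategoryTheory TopologicalSpace Opposite Limits Abelian

namespace Pool.Agent.TH130

attribute [local instance high] hshT hwT hextT

variable {T : TopCat.{0}}

/-- abelian sheaves on `T` -/
abbrev ShT (T : TopCat.{0}) : Type 1 := Sheaf (Opens.grothendieckTopology T) AddCommGrpCat.{0}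

/-- first cohomology over an open -/
abbrev HU (F : ShT T) (U : Opens T) : Type := Ext.{0} (ZZ U) F 1

/-- restriction in cohomology -/
noncomputable def resU {F : ShT T} {U V : Opens T} (i : V ⟶ U) (κ : HU F U) : HU F V :=
  (Ext.mk₀ (ZZmap i)).comp κ (zero_add 1)

lemma resU_add {F : ShT T} {U V : Opens T} (i : V ⟶ U) (κ κ' : HU F U) :
    resU i (κ + κ') = resU i κ + resU i κ' := Ext.comp_add _ _ _ _

lemma resU_zero {F : ShT T} {U V : Opens T} (i : V ⟶ U) : resU i (0 : HU F U) = 0 := by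
  unfold resU
  rw [Ext.comp_zero]

lemma ZZmap_comp {U V W : Opens T} (i : V ⟶ U) (j : W ⟶ V) : ZZmap (j ≫ i) = ZZmap j ≫ ZZmap i := by
  rw [← Functor.map_comp, ← Functor.whiskerRight_comp, ← Functor.map_comp]

lemma ZZmap_id (U : Opens T) : ZZmap (𝟙 U) = 𝟙 (ZZ U) := by
  change (presheafToSheaf _ _).map _ = _
  rw [CategoryTheory.Functor.map_id, Functor.whiskerRight_id', CategoryTheory.Functor.map_id]

lemma resU_resU {F : ShT T} {U V W : Opens T} (i : V ⟶ U) (j : W ⟶ V) (κ : HU F U) :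
    resU j (resU i κ) = resU (j ≫ i) κ := by
  unfold resU
  rw [ZZmap_comp, ← Ext.mk₀_comp_mk₀_assoc]

lemma resU_id {F : ShT T} {U : Opens T} (κ : HU F U) : resU (𝟙 U) κ = κ := by
  unfold resU
  rw [ZZmap_id, Ext.mk₀_id_comp]

/-- a map out of `ZZ U` is determined by its section -/
lemma ev_inj {U : Opens T} {F : ShT T} {ψ ψ' : ZZ U ⟶ F} (h : ev ψ = ev ψ') : ψ = ψ' := by
  apply Sheaf.hom_ext
  apply sheafify_hom_ext _ _ _ F.property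
  ext W : 2
  apply AddCommGrpCat.hom_ext
  apply FreeAbelianGroup.lift_ext
  intro g
  have key : ∀ χ : ZZ U ⟶ F, (toSheafify (Opens.grothendieckTopology T)
      (yoneda.obj U ⋙ AddCommGrpCat.free.{0}) ≫ χ.hom).app W (FreeAbelianGroup.of g) =
      F.obj.map g.op (ev χ) := by
    intro χ
    have h1 := ConcreteCategory.congr_hom ((toSheafify (Opens.grothendieckTopology T)
      (yoneda.obj U ⋙ AddCommGrpCat.free.{0}) ≫ χ.hom).naturality g.op) (e0 U)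
    refine Eq.trans ?_ h1
    change _ = (toSheafify (Opens.grothendieckTopology T)
      (yoneda.obj U ⋙ AddCommGrpCat.free.{0}) ≫ χ.hom).app W
        ((yoneda.obj U ⋙ AddCommGrpCat.free.{0}).map g.op (e0 U))
    congr 1
  refine (key ψ).trans (Eq.trans ?_ (key ψ').symm)
  rw [h]

/-- the map out of `ZZ U` given by a section -/
noncomputable def mkZ {U : Opens T} {F : ShT T} (P : F.obj.obj (op U)) : ZZ U ⟶ F :=
  (ev_surj P).choose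

lemma ev_mkZ {U : Opens T} {F : ShT T} (P : F.obj.obj (op U)) : ev (mkZ P) = P :=
  (ev_surj P).choose_spec

lemma ZZmap_mkZ {U V : Opens T} (i : V ⟶ U) {F : ShT T} (P : F.obj.obj (op U)) :
    ZZmap i ≫ mkZ P = mkZ (F.obj.map i.op P) := by
  apply ev_inj
  rw [ev_map, ev_mkZ, ev_mkZ]

lemma mkZ_comp {U : Opens T} {F G : ShT T} (P : F.obj.obj (op U)) (f : F ⟶ G) :
    mkZ P ≫ f = mkZ (f.hom.app (op U) P) := by
  apply ev_inj
  rw [ev_comp, ev_mkZ, ev_mkZ]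

lemma mkZ_add {U : Opens T} {F : ShT T} (P Q : F.obj.obj (op U)) :
    mkZ (P + Q) = mkZ P + mkZ Q := by
  apply ev_inj
  rw [ev_add, ev_mkZ, ev_mkZ, ev_mkZ]

/-- classes are locally trivial -/
theorem local_trivial (F : ShT T) (U : Opens T) (κ : HU F U) (p : T) (hp : p ∈ U) :
    ∃ (V : Opens T) (i : V ⟶ U), p ∈ V ∧ resU i κ = 0 := by
  let ι := Injective.ι F
  let S : ShortComplex (ShT T) := ShortComplex.mk ι (cokernel.π ι) (cokernel.condition ι)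
  have hS : S.ShortExact :=
    { exact := ShortComplex.exact_cokernel ι
      mono_f := by dsimp [S]; infer_instance
      epi_g := by dsimp [S]; infer_instance }
  have h0 : κ.comp (Ext.mk₀ S.f) (add_zero 1) = 0 := by
    have : Injective S.X₂ := by dsimp [S]; infer_instance
    exact Ext.eq_zero_of_injective _
  obtain ⟨x₃, hx₃⟩ := Ext.covariant_sequence_exact₁ _ hS κ h0 (zero_add 1)
  obtain ⟨q, rfl⟩ := (Ext.mk₀_bijective _ _).2 x₃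
  have hepi : Epi (cokernel.π ι) := inferInstance
  have hls : Sheaf.IsLocallySurjective (cokernel.π ι) :=
    (Sheaf.isLocallySurjective_iff_epi' _ (cokernel.π ι)).2 hepi
  have h1 := hls.imageSieve_mem (ev q)
  obtain ⟨V, i, ⟨s, hs⟩, hpV⟩ := h1 p hp
  refine ⟨V, i, hpV, ?_⟩
  have h2 : ZZmap i ≫ q = mkZ s ≫ cokernel.π ι := by
    apply ev_inj
    rw [ev_map, ev_comp, ev_mkZ]
    exact hs.symm
  unfold resU
  rw [← hx₃, Ext.mk₀_comp_mk₀_assoc, h2, ← Ext.mk₀_comp_mk₀_assoc]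
  have h3 : (Ext.mk₀ (cokernel.π ι)).comp hS.extClass (zero_add 1) = 0 := hS.comp_extClass
  rw [h3, Ext.comp_zero]

section MV

/-- the Mayer-Vietoris short complex -/
noncomputable def SS (V₁ V₂ : Opens T) : ShortComplex (ShT T) where
  X₁ := ZZ (V₁ ⊓ V₂)
  X₂ := ZZ V₁ ⊞ ZZ V₂
  X₃ := ZZ (V₁ ⊔ V₂)
  f := biprod.lift (ZZmap (homOfLE (inf_le_left : V₁ ⊓ V₂ ≤ V₁)))
    (-ZZmap (homOfLE (inf_le_right : V₁ ⊓ V₂ ≤ V₂)))
  g := biprod.desc (ZZmap (homOfLE (le_sup_left : V₁ ≤ V₁ ⊔ V₂)))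
    (ZZmap (homOfLE (le_sup_right : V₂ ≤ V₁ ⊔ V₂)))
  zero := by
    rw [biprod.lift_desc, ← ZZmap_comp, Preadditive.neg_comp, ← ZZmap_comp]
    exact add_neg_cancel _

lemma SS_exact (V₁ V₂ : Opens T) : (SS V₁ V₂).ShortExact :=
  (Opens.mayerVietorisSquare V₁ V₂).shortComplex_shortExact

/-- the extension class -/
noncomputable def ecl (V₁ V₂ : Opens T) : Ext.{0} (ZZ (V₁ ⊔ V₂)) (ZZ (V₁ ⊓ V₂)) 1 :=
  (SS_exact V₁ V₂).extClass

lemma ecl_lift (V₁ V₂ : Opens T) : (ecl V₁ V₂).comp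
    (Ext.mk₀ (biprod.lift (ZZmap (homOfLE (inf_le_left : V₁ ⊓ V₂ ≤ V₁)))
    (-ZZmap (homOfLE (inf_le_right : V₁ ⊓ V₂ ≤ V₂))))) (add_zero 1) = 0 :=
  (SS_exact V₁ V₂).extClass_comp

lemma ecl_exact₃ (V₁ V₂ : Opens T) {F : ShT T} (κ : HU F (V₁ ⊔ V₂))
    (h : (Ext.mk₀ (biprod.desc (ZZmap (homOfLE (le_sup_left : V₁ ≤ V₁ ⊔ V₂)))
      (ZZmap (homOfLE (le_sup_right : V₂ ≤ V₁ ⊔ V₂))))).comp κ (zero_add 1) = 0) :
    ∃ ψ : ZZ (V₁ ⊓ V₂) ⟶ F, (ecl V₁ V₂).comp (Ext.mk₀ ψ) (add_zero 1) = κ := by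
  obtain ⟨x₁, hx₁⟩ := Ext.contravariant_sequence_exact₃ (SS_exact V₁ V₂) F κ h (add_zero 1)
  obtain ⟨ψ, rfl⟩ := (Ext.mk₀_bijective _ _).2 x₁
  exact ⟨ψ, hx₁⟩

lemma ecl_exact₁ (V₁ V₂ : Opens T) {F : ShT T} (ψ : ZZ (V₁ ⊓ V₂) ⟶ F)
    (h : (ecl V₁ V₂).comp (Ext.mk₀ ψ) (add_zero 1) = 0) :
    ∃ χ : ZZ V₁ ⊞ ZZ V₂ ⟶ F, biprod.lift (ZZmap (homOfLE (inf_le_left : V₁ ⊓ V₂ ≤ V₁)))
    (-ZZmap (homOfLE (inf_le_right : V₁ ⊓ V₂ ≤ V₂))) ≫ χ = ψ := by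
  obtain ⟨x₂, hx₂⟩ := Ext.contravariant_sequence_exact₁ (SS_exact V₁ V₂) F (Ext.mk₀ ψ)
    (add_zero 1) h
  obtain ⟨χ, rfl⟩ := (Ext.mk₀_bijective _ _).2 x₂
  rw [Ext.mk₀_comp_mk₀] at hx₂
  exact ⟨χ, (Ext.mk₀_bijective _ _).1 hx₂⟩

variable (F G : ShT T) (V₁ V₂ : Opens T)

/-- the boundary of a section over the intersection -/
noncomputable def del {F : ShT T} (V₁ V₂ : Opens T) (c : F.obj.obj (op (V₁ ⊓ V₂))) :
    HU F (V₁ ⊔ V₂) :=
  (ecl V₁ V₂).comp (Ext.mk₀ (mkZ c)) (add_zero 1)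

lemma del_add {F : ShT T} (c c' : F.obj.obj (op (V₁ ⊓ V₂))) :
    del V₁ V₂ (c + c') = del V₁ V₂ c + del V₁ V₂ c' := by
  unfold del
  rw [mkZ_add, Ext.mk₀_add, Ext.comp_add]

lemma del_map {F G : ShT T} (f : F ⟶ G) (c : F.obj.obj (op (V₁ ⊓ V₂))) :
    (del V₁ V₂ c).comp (Ext.mk₀ f) (add_zero 1) = del V₁ V₂ (f.hom.app _ c) := by
  unfold del
  rw [Ext.comp_assoc_of_third_deg_zero, Ext.mk₀_comp_mk₀, mkZ_comp]

/-- exactness at `H¹` -/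
theorem mv_exact {F : ShT T} (κ : HU F (V₁ ⊔ V₂))
    (h₁ : resU (homOfLE (le_sup_left : V₁ ≤ V₁ ⊔ V₂)) κ = 0)
    (h₂ : resU (homOfLE (le_sup_right : V₂ ≤ V₁ ⊔ V₂)) κ = 0) :
    ∃ c : F.obj.obj (op (V₁ ⊓ V₂)), κ = del V₁ V₂ c := by
  obtain ⟨ψ, hψ⟩ := ecl_exact₃ V₁ V₂ κ (by
    apply Ext.biprod_ext
    · rw [Ext.comp_zero, Ext.mk₀_comp_mk₀_assoc, biprod.inl_desc]
      exact h₁
    · rw [Ext.comp_zero, Ext.mk₀_comp_mk₀_assoc, biprod.inr_desc]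
      exact h₂)
  refine ⟨ev ψ, ?_⟩
  unfold del
  have h3 : mkZ (ev ψ) = ψ := ev_inj (ev_mkZ _)
  rw [h3, hψ]

/-- exactness at `H⁰` of the intersection -/
theorem exists_of_del_eq_zero {F : ShT T} (c : F.obj.obj (op (V₁ ⊓ V₂))) (h : del V₁ V₂ c = 0) :
    ∃ (a : F.obj.obj (op V₁)) (b : F.obj.obj (op V₂)),
      c = F.obj.map (homOfLE (inf_le_left : V₁ ⊓ V₂ ≤ V₁)).op a +
        F.obj.map (homOfLE (inf_le_right : V₁ ⊓ V₂ ≤ V₂)).op b := by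
  obtain ⟨χ, hχ⟩ := ecl_exact₁ V₁ V₂ (mkZ c) h
  have h4 := lift_comp_eq (ZZmap (homOfLE (inf_le_left : V₁ ⊓ V₂ ≤ V₁)))
    (ZZmap (homOfLE (inf_le_right : V₁ ⊓ V₂ ≤ V₂))) χ
  rw [hχ] at h4
  refine ⟨ev (biprod.inl ≫ χ), ev (-(biprod.inr ≫ χ)), ?_⟩
  rw [← ev_map, ← ev_map, ← ev_add, ← h4, ev_mkZ]

/-- the boundary of a sum of restrictions is zero -/
theorem del_eq_zero {F : ShT T} (a : F.obj.obj (op V₁)) (b : F.obj.obj (op V₂)) :
    del V₁ V₂ (F.obj.map (homOfLE (inf_le_left : V₁ ⊓ V₂ ≤ V₁)).op a +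
        F.obj.map (homOfLE (inf_le_right : V₁ ⊓ V₂ ≤ V₂)).op b) = 0 := by
  have h4 := lift_comp_eq (ZZmap (homOfLE (inf_le_left : V₁ ⊓ V₂ ≤ V₁)))
    (ZZmap (homOfLE (inf_le_right : V₁ ⊓ V₂ ≤ V₂))) (biprod.desc (mkZ a) (-(mkZ b)))
  rw [biprod.inl_desc, biprod.inr_desc, neg_neg, ZZmap_mkZ, ZZmap_mkZ, ← mkZ_add] at h4
  unfold del
  rw [← h4, ← Ext.mk₀_comp_mk₀, ← Ext.comp_assoc_of_third_deg_zero, ecl_lift, Ext.zero_comp]

/-- a class vanishing on two opens, all of whose sections over the intersection split -/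
theorem eq_zero_of_split {F : ShT T} {W : Opens T} (hW : V₁ ⊔ V₂ = W)
    (hs : ∀ c : F.obj.obj (op (V₁ ⊓ V₂)), ∃ (a : F.obj.obj (op V₁)) (b : F.obj.obj (op V₂)),
      c = F.obj.map (homOfLE (inf_le_left : V₁ ⊓ V₂ ≤ V₁)).op a +
        F.obj.map (homOfLE (inf_le_right : V₁ ⊓ V₂ ≤ V₂)).op b)
    (κ : HU F W) (i₁ : V₁ ⟶ W) (i₂ : V₂ ⟶ W) (h₁ : resU i₁ κ = 0) (h₂ : resU i₂ κ = 0) :
    κ = 0 := by
  subst hW
  obtain ⟨c, hκ⟩ := mv_exact V₁ V₂ κ h₁ h₂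
  obtain ⟨a, b, hab⟩ := hs c
  rw [hκ, hab]
  exact del_eq_zero V₁ V₂ a b

/-- classes over the empty open vanish -/
theorem eq_zero_of_bot {F : ShT T} (κ : HU F ⊥) : κ = 0 := by
  have hs : Subsingleton ((ZZ (⊥ : Opens T)).obj.obj (op ⊥)) :=
    AddCommGrpCat.subsingleton_of_isZero
      (IsZero.of_iso (isZero_zero _)
        ((TopCat.Sheaf.isTerminalOfEmpty (X := T)
          (ZZ (⊥ : Opens T))).uniqueUpToIso (isZero_zero _).isTerminal))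
  have hzero : (𝟙 (ZZ (⊥ : Opens T)) : ZZ (⊥ : Opens T) ⟶ ZZ (⊥ : Opens T)) = 0 := by
    apply ev_inj
    exact hs.elim _ _
  have h7 := Ext.mk₀_id_comp κ
  rw [hzero, Ext.mk₀_zero, Ext.zero_comp] at h7
  exact h7.symm

end MV

end Pool.Agent.TH130
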