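import Pool.Agent.TH130.Inst

/-!
# Free abelian sheaves on opens

This is the first part of `Pool.Agent.H835R5.T.MV` (by helper482), with shorter names for the
instances.
-/

set_option autoImplicit false

open CategoryTheory TopologicalSpace Opposite Limits Abelian

namespace Pool.Agent.TH130

attribute [local instance high] hshT hwT hextT

variable {T : TopCat.{0}}

/-- the free abelian sheaf on the open `U` -/
noncomputable abbrev ZZ (U : Opens T) :
    Sheaf (Opens.grothendieckTopology T) AddCommGrpCat.{0} :=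
  (presheafToSheaf (Opens.grothendieckTopology T) AddCommGrpCat.{0}).obj
    (yoneda.obj U ⋙ AddCommGrpCat.free)

/-- functoriality of `ZZ` -/
noncomputable abbrev ZZmap {U V : Opens T} (i : V ⟶ U) : ZZ V ⟶ ZZ U :=
  (presheafToSheaf (Opens.grothendieckTopology T) AddCommGrpCat.{0}).map
    (Functor.whiskerRight (yoneda.map i) AddCommGrpCat.free)

/-- the universal section of the presheaf -/
def e0 (U : Opens T) : (yoneda.obj U ⋙ AddCommGrpCat.free).obj (op U) :=
  FreeAbelianGroup.of (𝟙 U)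

/-- the universal section -/
noncomputable def e (U : Opens T) : (ZZ U).obj.obj (op U) :=
  (toSheafify (Opens.grothendieckTopology T) (yoneda.obj U ⋙ AddCommGrpCat.free)).app (op U) (e0 U)

/-- evaluation -/
noncomputable def ev {U : Opens T} {F : Sheaf (Opens.grothendieckTopology T) AddCommGrpCat.{0}}
    (ψ : ZZ U ⟶ F) : F.obj.obj (op U) := ψ.hom.app (op U) (e U)

lemma ev_comp {U : Opens T} {F G : Sheaf (Opens.grothendieckTopology T) AddCommGrpCat.{0}}
    (ψ : ZZ U ⟶ F) (f : F ⟶ G) : ev (ψ ≫ f) = f.hom.app (op U) (ev ψ) := rfl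

lemma ev_add {U : Opens T} {F : Sheaf (Opens.grothendieckTopology T) AddCommGrpCat.{0}}
    (ψ ψ' : ZZ U ⟶ F) : ev (ψ + ψ') = ev ψ + ev ψ' := rfl

lemma e_map {U V : Opens T} (i : V ⟶ U) :
    (ZZmap i).hom.app (op V) (e V) = (ZZ U).obj.map i.op (e U) := by
  have h1 := toSheafify_naturality (Opens.grothendieckTopology T)
    (Functor.whiskerRight (yoneda.map i) AddCommGrpCat.free.{0})
  have h2 := congrArg (fun φ => φ.app (op V)) h1
  have h3 := ConcreteCategory.congr_hom h2 (e0 V)
  have h4 := ConcreteCategory.congr_hom ((toSheafify (Opens.grothendieckTopology T)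
    (yoneda.obj U ⋙ AddCommGrpCat.free.{0})).naturality i.op) (e0 U)
  have h5 : (Functor.whiskerRight (yoneda.map i) AddCommGrpCat.free.{0}).app (op V) (e0 V) =
    (yoneda.obj U ⋙ AddCommGrpCat.free).map i.op (e0 U) := by
    change FreeAbelianGroup.of (𝟙 V ≫ i) = FreeAbelianGroup.of (i ≫ 𝟙 U)
    rw [Category.id_comp, Category.comp_id]
  change _ = _ at h3
  simp only [NatTrans.comp_app, ConcreteCategory.comp_apply] at h3 h4
  rw [h5] at h3
  exact h3.symm.trans h4

lemma ev_map {U V : Opens T} (i : V ⟶ U)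
    {F : Sheaf (Opens.grothendieckTopology T) AddCommGrpCat.{0}} (ψ : ZZ U ⟶ F) :
    ev (ZZmap i ≫ ψ) = F.obj.map i.op (ev ψ) := by
  rw [ev_comp]
  have h1 : ev (ZZmap i) = (ZZ U).obj.map i.op (e U) := e_map i
  rw [h1]
  exact ConcreteCategory.congr_hom (ψ.hom.naturality i.op) (e U)

/-- the map of presheaves given by a section -/
noncomputable def pm (F : (Opens T)ᵒᵖ ⥤ AddCommGrpCat.{0}) (U : Opens T) (P : F.obj (op U)) :
    yoneda.obj U ⋙ AddCommGrpCat.free ⟶ F where
  app W := AddCommGrpCat.ofHom (FreeAbelianGroup.lift fun g : W.unop ⟶ U => F.map g.op P)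
  naturality W W' i := by
    apply AddCommGrpCat.hom_ext
    apply FreeAbelianGroup.lift_ext
    intro g
    change FreeAbelianGroup.lift (fun g : W'.unop ⟶ U => F.map g.op P)
      (FreeAbelianGroup.of (i.unop ≫ g)) = F.map i (FreeAbelianGroup.lift
      (fun g : W.unop ⟶ U => F.map g.op P) (FreeAbelianGroup.of g))
    rw [FreeAbelianGroup.lift_apply_of, FreeAbelianGroup.lift_apply_of, ← ConcreteCategory.comp_apply,
      ← Functor.map_comp]
    rfl

lemma ev_surj {U : Opens T} {F : Sheaf (Opens.grothendieckTopology T) AddCommGrpCat.{0}}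
    (P : F.obj.obj (op U)) : ∃ ψ : ZZ U ⟶ F, ev ψ = P := by
  refine ⟨⟨sheafifyLift _ (pm F.obj U P) F.property⟩, ?_⟩
  have h1 := toSheafify_sheafifyLift (Opens.grothendieckTopology T) (pm F.obj U P) F.property
  have h2 := congrArg (fun φ => φ.app (op U)) h1
  have h3 := ConcreteCategory.congr_hom h2 (e0 U)
  refine Eq.trans ?_ (h3.trans ?_)
  · rfl
  · change FreeAbelianGroup.lift (fun g : U ⟶ U => F.obj.map g.op P)
      (FreeAbelianGroup.of (𝟙 U)) = P
    rw [FreeAbelianGroup.lift_apply_of]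
    change F.obj.map (𝟙 (op U)) P = P
    rw [F.obj.map_id]
    rfl

/-- the constant presheaf is the free presheaf on `⊤` -/
noncomputable def presIso (U : Opens T) (hU : U = ⊤) :
    (Functor.const (Opens T)ᵒᵖ).obj (AddCommGrpCat.of (ULift.{0} ℤ)) ≅
      yoneda.obj U ⋙ AddCommGrpCat.free :=
  NatIso.ofComponents (fun W =>
    letI : Unique (W.unop ⟶ U) := ⟨⟨homOfLE (hU ▸ le_top)⟩, fun _ => Subsingleton.elim _ _⟩
    (AddEquiv.ulift.trans (FreeAbelianGroup.uniqueEquiv (W.unop ⟶ U)).symm).toAddCommGrpIso)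
    (by
      intro W W' i
      let _ : Unique (W.unop ⟶ U) := ⟨⟨homOfLE (hU ▸ le_top)⟩, fun _ => Subsingleton.elim _ _⟩
      let _ : Unique (W'.unop ⟶ U) := ⟨⟨homOfLE (hU ▸ le_top)⟩, fun _ => Subsingleton.elim _ _⟩
      apply AddCommGrpCat.hom_ext
      apply AddMonoidHom.ext
      intro x
      change x.down • FreeAbelianGroup.of (default : W'.unop ⟶ U) =
        FreeAbelianGroup.map (fun g : W.unop ⟶ U => i.unop ≫ g)
          (x.down • FreeAbelianGroup.of (default : W.unop ⟶ U))
      rw [map_zsmul, FreeAbelianGroup.map_of_apply]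
      congr 2)

lemma lift_comp_eq {C : Type*} [Category C] [Preadditive C] [HasBinaryBiproducts C]
    {X Y Z G : C} (a : X ⟶ Y) (b : X ⟶ Z) (ψ : Y ⊞ Z ⟶ G) :
    biprod.lift a (-b) ≫ ψ = a ≫ (biprod.inl ≫ ψ) + b ≫ (-(biprod.inr ≫ ψ)) := by
  have h : ψ = biprod.desc (biprod.inl ≫ ψ) (biprod.inr ≫ ψ) := by
    apply biprod.hom_ext' <;> simp
  conv_lhs => rw [h]
  rw [biprod.lift_desc]
  simp

end Pool.Agent.TH130
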