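import Pool.Agent.H835R5.Fin
import Pool.Agent.TH130.Aff

/-!
# Derivations and logarithmic derivatives of sheaves of rings
-/

set_option autoImplicit false

open CategoryTheory AlgebraicGeometry TopologicalSpace Opposite Limits Abelian
open Pool.Agent.H835R5

namespace Pool.Agent.TH130

attribute [local instance high] hshT hwT hextT

section

variable {T : TopCat.{0}} {R R' : TopCat.Presheaf CommRingCat.{0} T}

/-- the map of additive presheaves -/
noncomputable def addMap (φ : R ⟶ R') : addPre R ⟶ addPre R' where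
  app U := AddCommGrpCat.ofHom ((φ.app U).hom : _ →+ _)
  naturality U V i := by
    ext u
    exact congrArg (fun ψ => ψ.hom u) (φ.naturality i)

/-- a derivation of a presheaf of commutative rings -/
structure DerP (R : TopCat.Presheaf CommRingCat.{0} T) where
  /-- the values on the opens -/
  d : ∀ U : (Opens T)ᵒᵖ, R.obj U →+ R.obj U
  leib : ∀ (U : (Opens T)ᵒᵖ) (a b : R.obj U), d U (a * b) = a * d U b + b * d U a
  nat : ∀ {U V : (Opens T)ᵒᵖ} (i : U ⟶ V) (a : R.obj U), d V ((R.map i).hom a) =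
    (R.map i).hom (d U a)

/-- the map of presheaves of a derivation -/
noncomputable def DerP.map (δ : DerP R) : addPre R ⟶ addPre R where
  app U := AddCommGrpCat.ofHom (δ.d U)
  naturality U V i := by
    ext u
    exact δ.nat i u

/-- the derivation of the structure presheaf -/
noncomputable def ofDerX {X : Scheme.{0}} (d : DerX X) : DerP X.presheaf where
  d U := d.D U.unop
  leib U a b := d.leib U.unop a b
  nat {U V} i a := (d.res U.unop V.unop i.unop.le a).symm

lemma val_add {U : (Opens T)ᵒᵖ}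
    (u v : UnitsOn R U) : (u + v).val = u.val * v.val := rfl

lemma val_neg_mul {U : (Opens T)ᵒᵖ} (u : UnitsOn R U) : (-u).val * u.val = 1 :=
  Units.inv_mul (show (R.obj U)ˣ from u)

/-- the logarithmic derivative -/
noncomputable def dlogHom (δ : DerP R) (U : (Opens T)ᵒᵖ) : UnitsOn R U →+ (R.obj U) :=
  AddMonoidHom.mk' (fun u => (-u).val * δ.d U u.val) (by
    intro u v
    have h1 := val_neg_mul u
    have h2 := val_neg_mul v
    have h3 : (-(u + v)).val = (-u).val * (-v).val := by rw [neg_add, val_add]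
    have h4 := δ.leib U u.val v.val
    change (-(u + v)).val * δ.d U (u.val * v.val) = (-u).val * δ.d U u.val +
      (-v).val * δ.d U v.val
    rw [h4, h3]
    linear_combination (exp := 1) ((-v).val * δ.d U v.val) * h1 +
      ((-u).val * δ.d U u.val) * h2)

lemma dlogHom_apply (δ : DerP R) (U : (Opens T)ᵒᵖ) (u : UnitsOn R U) :
    dlogHom δ U u = (-u).val * δ.d U u.val := rfl

lemma dlog_nat (δ : DerP R) {U V : (Opens T)ᵒᵖ} (i : U ⟶ V)
    (u : UnitsOn R U) : dlogHom δ V (unitsHom (R' := R) (R.map i) u) =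
      (R.map i).hom (dlogHom δ U u) := by
  rw [dlogHom_apply, dlogHom_apply, ← map_neg, map_mul]
  exact congrArg₂ (· * ·) rfl (δ.nat i u.val)

/-- the logarithmic derivative as a map of presheaves -/
noncomputable def dlogP (δ : DerP R) : unitsPresheaf R ⟶ addPre R where
  app U := AddCommGrpCat.ofHom (dlogHom δ U)
  naturality U V i := by
    ext u
    exact dlog_nat δ i u

/-- the logarithmic derivative as a map of sheaves -/
noncomputable def dlogS (δ : DerP R) (h : R.IsSheaf) : unitsSheaf R h ⟶ addSh R h := ⟨dlogP δ⟩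

/-- the map of additive sheaves -/
noncomputable def addMapS (φ : R ⟶ R') (h : R.IsSheaf) (h' : R'.IsSheaf) :
    addSh R h ⟶ addSh R' h' := ⟨addMap φ⟩

/-- the map of sheaves of units -/
noncomputable def unitsMapS (φ : R ⟶ R') (h : R.IsSheaf) (h' : R'.IsSheaf) :
    unitsSheaf R h ⟶ unitsSheaf R' h' := ⟨unitsMap φ⟩

lemma dlog_comp (δ : DerP R) (δ' : DerP R') (φ : R ⟶ R') (h : R.IsSheaf) (h' : R'.IsSheaf)
    (hφ : ∀ (U : (Opens T)ᵒᵖ) (a : R.obj U), δ'.d U ((φ.app U).hom a) = (φ.app U).hom (δ.d U a)) :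
    unitsMapS φ h h' ≫ dlogS δ' h' = dlogS δ h ≫ addMapS φ h h' := by
  apply Sheaf.hom_ext
  ext U u
  change dlogHom δ' U (unitsHom (φ.app U) u) = (φ.app U).hom (dlogHom δ U u)
  rw [dlogHom_apply, dlogHom_apply, map_mul, ← map_neg]
  exact congrArg₂ (· * ·) rfl (hφ U u.val)

lemma dlog_two (δ : DerP R) (h : R.IsSheaf) (h2 : (2 : R.obj (op ⊤)) = 0) :
    dlogS δ h + dlogS δ h = 0 := by
  apply Sheaf.hom_ext
  ext U u
  have h3 : (2 : R.obj U) = 0 := by
    have h := congrArg (R.map (homOfLE (le_top : U.unop ≤ ⊤)).op).hom h2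
    simpa only [map_ofNat, map_zero] using h
  change dlogHom δ U u + dlogHom δ U u = (0 : R.obj U)
  rw [← two_mul, h3, zero_mul]

/-- descent of a derivation -/
theorem exists_descend (δ : DerP R) (φ : R ⟶ R') (h : R.IsSheaf) (h' : R'.IsSheaf)
    (hs : ∀ (U : Opens T) (s : R'.obj (op U)) (x : T), x ∈ U → ∃ (V : Opens T) (i : V ⟶ U),
      x ∈ V ∧ ∃ r : R.obj (op V), (φ.app (op V)).hom r = (R'.map i.op).hom s)
    (hk : ∀ (U : (Opens T)ᵒᵖ) (r : R.obj U), (φ.app U).hom r = 0 → (φ.app U).hom (δ.d U r) = 0) :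
    ∃ δ' : DerP R', ∀ (U : (Opens T)ᵒᵖ) (a : R.obj U),
      δ'.d U ((φ.app U).hom a) = (φ.app U).hom (δ.d U a) := by
  let F : addSh R h ⟶ addSh R' h' := addMapS φ h h'
  let E : addSh R h ⟶ addSh R h := ⟨δ.map⟩
  have hF : Epi F := by
    rw [← Sheaf.isLocallySurjective_iff_epi']
    refine ⟨fun {U} s => ?_⟩
    intro x hx
    obtain ⟨V, i, hxV, r, hr⟩ := hs U s x hx
    exact ⟨V, i, ⟨r, hr⟩, hxV⟩
  have hz : kernel.ι F ≫ (E ≫ F) = 0 := by
    apply Sheaf.hom_ext
    ext U u
    refine hk U ((kernel.ι F).hom.app U u) ?_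
    have h1 : (kernel.ι F ≫ F).hom.app U u = 0 := by
      rw [kernel.condition]
      rfl
    exact h1
  let G : addSh R' h' ⟶ addSh R' h' := Abelian.epiDesc F (E ≫ F) hz
  have hG : F ≫ G = E ≫ F := Abelian.comp_epiDesc F (E ≫ F) hz
  let g : ∀ U : (Opens T)ᵒᵖ, R'.obj U →+ R'.obj U := fun U => (G.hom.app U).hom
  have hg : ∀ (U : (Opens T)ᵒᵖ) (a : R.obj U), g U ((φ.app U).hom a) = (φ.app U).hom (δ.d U a) := by
    intro U a
    have h1 : (F ≫ G).hom.app U a = (E ≫ F).hom.app U a := by rw [hG]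
    exact h1
  have hn : ∀ {U V : (Opens T)ᵒᵖ} (i : U ⟶ V) (a : R'.obj U), g V ((R'.map i).hom a) =
      (R'.map i).hom (g U a) := by
    intro U V i a
    exact ConcreteCategory.congr_hom (G.hom.naturality i) a
  refine ⟨⟨g, ?_, hn⟩, hg⟩
  intro U a b
  let S : TopCat.Sheaf CommRingCat.{0} T := ⟨R', h'⟩
  -- check locally
  have hloc : ∀ x : U.unop, ∃ (V : Opens T) (i : V ⟶ U.unop), x.1 ∈ V ∧
      (∃ r : R.obj (op V), (φ.app (op V)).hom r = (R'.map i.op).hom a) ∧
      (∃ r : R.obj (op V), (φ.app (op V)).hom r = (R'.map i.op).hom b) := by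
    intro x
    obtain ⟨V, i, hxV, r, hr⟩ := hs U.unop a x.1 x.2
    obtain ⟨W, j, hxW, r', hr'⟩ := hs V ((R'.map i.op).hom b) x.1 hxV
    refine ⟨W, j ≫ i, hxW, ⟨(R.map j.op).hom r, ?_⟩, ⟨r', ?_⟩⟩
    · have h1 := congrArg (fun ψ => ψ.hom r) (φ.naturality j.op)
      refine Eq.trans (h1) ?_
      change (R'.map j.op).hom ((φ.app (op V)).hom r) = _
      rw [hr, op_comp, R'.map_comp]
      rfl
    · rw [hr', op_comp, R'.map_comp]
      rfl
  choose V i hxV ha hb using hloc
  refine TopCat.Sheaf.eq_of_locally_eq' S V U.unop i (fun x hx => ?_) _ _ ?_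
  · exact Opens.mem_iSup.2 ⟨⟨x, hx⟩, hxV ⟨x, hx⟩⟩
  · intro x
    obtain ⟨r, hr⟩ := ha x
    obtain ⟨r', hr'⟩ := hb x
    have e1 : (R'.map (i x).op).hom (g U (a * b)) =
        g (op (V x)) ((φ.app (op (V x))).hom (r * r')) := by
      rw [← hn, (R'.map (i x).op).hom.map_mul, ← hr, ← hr', (φ.app (op (V x))).hom.map_mul]
    have e2 : (R'.map (i x).op).hom (a * g U b + b * g U a) =
        (φ.app (op (V x))).hom (δ.d (op (V x)) (r * r')) := by
      rw [δ.leib, (R'.map (i x).op).hom.map_add, (R'.map (i x).op).hom.map_mul,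
        (R'.map (i x).op).hom.map_mul, ← hn, ← hn, ← hr, ← hr', hg, hg,
        (φ.app (op (V x))).hom.map_add, (φ.app (op (V x))).hom.map_mul,
        (φ.app (op (V x))).hom.map_mul]
    exact e1.trans ((hg _ _).trans e2.symm)

end

end Pool.Agent.TH130
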