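
import Mathlib

/-!
# Short names for instances on categories of abelian sheaves

The instances are propositions; giving them names makes the terms that use them small.
-/

set_option autoImplicit false

open CategoryTheory TopologicalSpace

namespace Pool.Agent.TH130

theorem hshT (T : TopCat.{0}) :
    HasSheafify (Opens.grothendieckTopology T) AddCommGrpCat.{0} := inferInstance

theorem hwT (T : TopCat.{0}) :
    HasWeakSheafify (Opens.grothendieckTopology T) AddCommGrpCat.{0} := inferInstance

attribute [local instance high] hshT hwT

theorem hextT (T : TopCat.{0}) :
    HasExt.{0} (Sheaf (Opens.grothendieckTopology T) AddCommGrpCat.{0}) := inferInstance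

end Pool.Agent.TH130
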