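import Pool.Agent.H835R5.T.Spl

/-!
# A functional on the sections over the intersection of the two charts
-/

set_option autoImplicit false

open CategoryTheory AlgebraicGeometry TopologicalSpace Opposite Limits
open Pool.Agent.H835R5
open Pool.Agent.H835R5.Spl (rh rs_eq rh_rh exists_ev exists_loc rh_cst)

namespace Pool.Agent.TH130

namespace Lam

open Polynomial LaurentPolynomial

lemma span3 {A N : Type} [CommRing A] [CommRing N] (ι : A[X] →+* N) (ξ : N)
    (h : ξ ^ 3 = ι (X ^ 2 + X)) (f : MvPolynomial (Fin 2) A) :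
    ∃ p₀ p₁ p₂ : A[X], MvPolynomial.eval₂ (ι.comp Polynomial.C) ![ξ, ι X] f =
      ι p₀ + ξ * ι p₁ + ξ ^ 2 * ι p₂ := by
  induction f using MvPolynomial.induction_on with
  | C a =>
    refine ⟨Polynomial.C a, 0, 0, ?_⟩
    rw [MvPolynomial.eval₂_C, map_zero, mul_zero, mul_zero, add_zero, add_zero]
    rfl
  | add p q hp hq =>
    obtain ⟨p₀, p₁, p₂, hp⟩ := hp
    obtain ⟨q₀, q₁, q₂, hq⟩ := hq
    refine ⟨p₀ + q₀, p₁ + q₁, p₂ + q₂, ?_⟩
    rw [MvPolynomial.eval₂_add, hp, hq, map_add, map_add, map_add]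
    ring
  | mul_X p i hp =>
    obtain ⟨p₀, p₁, p₂, hp⟩ := hp
    rw [MvPolynomial.eval₂_mul, MvPolynomial.eval₂_X, hp]
    fin_cases i
    · refine ⟨(X ^ 2 + X) * p₂, p₀, p₁, ?_⟩
      rw [map_mul, ← h]
      change (ι p₀ + ξ * ι p₁ + ξ ^ 2 * ι p₂) * ξ = _
      ring
    · refine ⟨p₀ * X, p₁ * X, p₂ * X, ?_⟩
      rw [map_mul, map_mul, map_mul]
      change (ι p₀ + ξ * ι p₁ + ξ ^ 2 * ι p₂) * ι X = _
      ring

variable (A : Type) [CommRing A]

/-- the relation -/
noncomputable def rel : (LaurentPolynomial A)[X] := X ^ 3 - Polynomial.C (T 2 + T 1)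

lemma rel_monic : (rel A).Monic := monic_X_pow_sub_C _ (by norm_num)

/-- the ring `A[y, 1/y][x]/(x³ - y² - y)` -/
abbrev N : Type := AdjoinRoot (rel A)

/-- the class of `x` -/
noncomputable def xi : N A := AdjoinRoot.root (rel A)

/-- Laurent polynomials in `y` -/
noncomputable def io : LaurentPolynomial A →+* N A := AdjoinRoot.of (rel A)

lemma xi_cube : (xi A) ^ 3 = io A (T 2 + T 1) := by
  have h : AdjoinRoot.mk (rel A) (rel A) = 0 := AdjoinRoot.mk_self
  have h1 : AdjoinRoot.mk (rel A) (rel A) = (xi A) ^ 3 - io A (T 2 + T 1) := by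
    change AdjoinRoot.mk (rel A) (X ^ 3 - Polynomial.C (T 2 + T 1)) = _
    rw [map_sub, map_pow]
    rfl
  rw [h1] at h
  exact sub_eq_zero.1 h

/-- the functional on `N` -/
noncomputable def lam : N A →+ A where
  toFun n := ((AdjoinRoot.modByMonicHom (rel_monic A) n).coeff 2).coeff (-1)
  map_zero' := by simp
  map_add' a b := by simp

variable {A}

lemma lam_apply (p₀ p₁ p₂ : LaurentPolynomial A) :
    lam A (io A p₀ + xi A * io A p₁ + (xi A) ^ 2 * io A p₂) = p₂.coeff (-1) := by
  cases subsingleton_or_nontrivial A with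
  | inl h => exact Subsingleton.elim _ _
  | inr h =>
    have h1 : io A p₀ + xi A * io A p₁ + (xi A) ^ 2 * io A p₂ =
      AdjoinRoot.mk (rel A) (Polynomial.C p₀ + X * Polynomial.C p₁ + X ^ 2 * Polynomial.C p₂) := by
      rw [map_add, map_add, map_mul, map_mul, map_pow]
      rfl
    have h2 : (Polynomial.C p₀ + X * Polynomial.C p₁ + X ^ 2 * Polynomial.C p₂) %ₘ (rel A) =
      Polynomial.C p₀ + X * Polynomial.C p₁ + X ^ 2 * Polynomial.C p₂ := by
      rw [modByMonic_eq_self_iff (rel_monic A)]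
      have h3 : (rel A).degree = 3 := degree_X_pow_sub_C (by norm_num) _
      rw [h3]
      have h4 : (Polynomial.C p₀ + X * Polynomial.C p₁ + X ^ 2 * Polynomial.C p₂).degree ≤ 2 := by
        compute_degree
      exact lt_of_le_of_lt h4 (by norm_num)
    change ((AdjoinRoot.modByMonicHom (rel_monic A) _).coeff 2).coeff (-1) = _
    rw [h1, AdjoinRoot.modByMonicHom_mk, h2]
    congr 1
    simp

lemma lam_smul (a : A) (n : N A) : lam A (io A (LaurentPolynomial.C a) * n) = a * lam A n := by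
  have h : io A (LaurentPolynomial.C a) * n = (LaurentPolynomial.C a : LaurentPolynomial A) • n := by
    rw [Algebra.smul_def]
    rfl
  change ((AdjoinRoot.modByMonicHom (rel_monic A) _).coeff 2).coeff (-1) = a * (
    (AdjoinRoot.modByMonicHom (rel_monic A) n).coeff 2).coeff (-1)
  rw [h, map_smul, coeff_smul, smul_eq_mul, ← LaurentPolynomial.smul_eq_C_mul]
  rfl

lemma lam_plus (p₀ p₁ p₂ : A[X]) :
    lam A (io A (toLaurent p₀) + xi A * io A (toLaurent p₁) + (xi A) ^ 2 * io A (toLaurent p₂)) =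
      0 := by
  rw [lam_apply, LaurentPolynomial.coeff_toLaurent]
  exact Finsupp.mapDomain_of_notMem_range _ _ (by simp)

/-- the second embedding of polynomials -/
noncomputable def kap : A[X] →+* N A :=
  (io A).comp ((LaurentPolynomial.invert (R := A)).toRingEquiv.toRingHom.comp toLaurent)

lemma kap_apply (p : A[X]) : kap p = io A (LaurentPolynomial.invert (toLaurent p)) := rfl

lemma lam_minus (p₀ p₁ p₂ : A[X]) :
    lam A (kap p₀ + (xi A * io A (T (-1))) * kap p₁ + (xi A * io A (T (-1))) ^ 2 * kap p₂) =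
      0 := by
  have h : kap p₀ + (xi A * io A (T (-1))) * kap p₁ + (xi A * io A (T (-1))) ^ 2 * kap p₂ =
    io A (LaurentPolynomial.invert (toLaurent p₀)) + xi A *
      io A (T (-1) * LaurentPolynomial.invert (toLaurent p₁)) + (xi A) ^ 2 *
      io A (T (-2) * LaurentPolynomial.invert (toLaurent p₂)) := by
    rw [kap_apply, kap_apply, kap_apply, map_mul, map_mul, mul_pow]
    have h1 : io A (T (-2)) = (io A (T (-1))) ^ 2 := by
      rw [← map_pow, LaurentPolynomial.T_pow]
      norm_num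
    rw [h1]
    ring
  rw [h, lam_apply]
  have h2 : T (-2) * LaurentPolynomial.invert (toLaurent p₂) =
    LaurentPolynomial.invert (toLaurent (X ^ 2 * p₂)) := by
    rw [map_mul, map_mul, Polynomial.toLaurent_X_pow, LaurentPolynomial.invert_T]
    rfl
  rw [h2, LaurentPolynomial.invert_apply, LaurentPolynomial.coeff_toLaurent]
  have h3 : (-(-1 : ℤ)) = ((1 : ℕ) : ℤ) := by norm_num
  rw [h3]
  refine (Finsupp.mapDomain_apply Nat.cast_injective _ _).trans ?_
  exact (Polynomial.coeff_X_pow_mul' p₂ 2 1).trans (by simp)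

/-- the element `x² / y` -/
noncomputable def ff (A : Type) [CommRing A] : N A := (xi A) ^ 2 * io A (T (-1))

lemma ff_cube (h2 : (2 : A) = 0) : (ff A) ^ 3 = io A (T 1 + T (-1)) := by
  have h1 : (ff A) ^ 3 = io A ((T 2 + T 1) ^ 2 * T (-1) ^ 3) := by
    rw [ff, mul_pow, ← pow_mul, mul_comm 2 3, pow_mul, xi_cube, ← map_pow, ← map_pow, ← map_mul]
  rw [h1]
  congr 1
  have h3 : (2 : LaurentPolynomial A) = 0 := by
    have := congrArg (LaurentPolynomial.C (R := A)) h2
    rwa [map_ofNat, map_zero] at this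
  have h4 : (T 2 : LaurentPolynomial A) = T 1 * T 1 := by rw [← T_add]; norm_num
  have h5 : (T 1 : LaurentPolynomial A) * T (-1) = 1 := by rw [← T_add]; norm_num
  rw [h4]
  generalize (T 1 : LaurentPolynomial A) = a at *
  generalize (T (-1) : LaurentPolynomial A) = b at *
  linear_combination (a * ((a * b) ^ 2 + a * b + 1) + b * (a * b + 1)) * h5 + a ^ 3 * b ^ 3 * h3

lemma const_term (h2 : (2 : A) = 0) (q : ℕ) (hq : 1 ≤ q) :
    ((T 1 + T (-1)) ^ q : LaurentPolynomial A).coeff 0 = 0 := by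
  have h1 : ((T 1 + T (-1)) ^ q : LaurentPolynomial A) = ∑ m ∈ Finset.range (q + 1),
      (LaurentPolynomial.C ((q.choose m : ℕ) : A)) * T ((m : ℤ) - ((q - m : ℕ) : ℤ)) := by
    rw [add_pow]
    refine Finset.sum_congr rfl fun m _ => ?_
    rw [T_pow, T_pow, ← T_add, map_natCast, mul_comm]
    congr 2
    ring
  rw [h1]
  have h3 : (∑ m ∈ Finset.range (q + 1),
      (LaurentPolynomial.C ((q.choose m : ℕ) : A)) * T ((m : ℤ) - ((q - m : ℕ) : ℤ)) :
        LaurentPolynomial A).coeff 0 = ∑ m ∈ Finset.range (q + 1),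
      (((LaurentPolynomial.C ((q.choose m : ℕ) : A)) * T ((m : ℤ) - ((q - m : ℕ) : ℤ)) :
        LaurentPolynomial A).coeff 0) := by
    simp
  rw [h3]
  refine Finset.sum_eq_zero fun m hm => ?_
  rw [← LaurentPolynomial.smul_eq_C_mul]
  change ((q.choose m : ℕ) : A) * (T ((m : ℤ) - ((q - m : ℕ) : ℤ)) : LaurentPolynomial A).coeff 0 = 0
  rw [T_apply]
  split_ifs with h
  · have h4 : q = 2 * m := by
      have := Finset.mem_range.1 hm
      omega
    subst h4
    have h5 : 2 ∣ Nat.centralBinom m := Nat.two_dvd_centralBinom_of_one_le (by omega)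
    rw [Nat.centralBinom_eq_two_mul_choose] at h5
    obtain ⟨r, hr⟩ := h5
    rw [hr]
    push_cast
    rw [h2, zero_mul, zero_mul]
  · rw [mul_zero]

lemma lam_ff : lam A (ff A) = 1 := by
  have h := lam_apply (A := A) 0 0 (T (-1))
  rw [map_zero, mul_zero, add_zero, zero_add] at h
  refine h.trans ?_
  rw [T_apply]
  simp

lemma lam_ff_pow (h2 : (2 : A) = 0) (k : ℕ) : lam A ((ff A) ^ (k + 2)) = 0 := by
  have hk : ∃ q, k + 2 = 3 * (q + 1) + 1 ∨ k + 2 = 3 * q + 2 ∨ k + 2 = 3 * q := by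
    have := Nat.div_add_mod (k + 2) 3
    have h3 := Nat.mod_lt (k + 2) (show 0 < 3 by norm_num)
    rcases (show (k + 2) % 3 = 0 ∨ (k + 2) % 3 = 1 ∨ (k + 2) % 3 = 2 by omega) with h | h | h
    · exact ⟨(k + 2) / 3, Or.inr (Or.inr (by omega))⟩
    · exact ⟨(k + 2) / 3 - 1, Or.inl (by omega)⟩
    · exact ⟨(k + 2) / 3, Or.inr (Or.inl (by omega))⟩
  obtain ⟨q, h | h | h⟩ := hk
  · rw [h, pow_add, pow_mul, ff_cube h2, ← map_pow, pow_one, ff]
    have e : io A ((T 1 + T (-1)) ^ (q + 1)) * (xi A ^ 2 * io A (T (-1))) =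
      io A 0 + xi A * io A 0 + (xi A) ^ 2 * io A ((T 1 + T (-1)) ^ (q + 1) * T (-1)) := by
      rw [map_zero, map_mul]
      ring
    rw [e, lam_apply]
    have h5 := const_term h2 (q + 1) (by omega)
    have h6 : ∀ p : LaurentPolynomial A, (p * T (-1)).coeff (-1) = p.coeff 0 := by
      intro p
      induction p using LaurentPolynomial.induction_on' with
      | add p q hp hq => simp only [add_mul, AddMonoidAlgebra.coeff_add, Finsupp.add_apply, hp, hq]
      | C_mul_T n a =>
        rw [mul_assoc, ← T_add, ← LaurentPolynomial.smul_eq_C_mul, ← LaurentPolynomial.smul_eq_C_mul]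
        change a * (T (n + -1) : LaurentPolynomial A).coeff (-1) =
          a * (T n : LaurentPolynomial A).coeff 0
        rw [T_apply, T_apply]
        congr 1
        have : (n + -1 = -1) ↔ n = 0 := by omega
        simp only [this]
    rw [h6, h5]
  · rw [h, pow_add, pow_mul, ff_cube h2, ← map_pow]
    have e : io A ((T 1 + T (-1)) ^ q) * (ff A) ^ 2 =
      io A 0 + xi A * io A ((T 1 + T (-1)) ^ q * ((T 2 + T 1) * T (-1) ^ 2)) +
        (xi A) ^ 2 * io A 0 := by
      have e3 : io A ((T (-1)) ^ 2) = (io A (T (-1))) ^ 2 := map_pow _ _ _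
      rw [map_zero, map_mul, map_mul, ← xi_cube, e3, ff]
      ring
    rw [e, lam_apply]
    rfl
  · rw [h, pow_mul, ff_cube h2, ← map_pow]
    have e : io A ((T 1 + T (-1)) ^ q) = io A ((T 1 + T (-1)) ^ q) + xi A * io A 0 +
      (xi A) ^ 2 * io A 0 := by rw [map_zero]; ring
    rw [e, lam_apply]
    rfl

end Lam

open Lam Polynomial LaurentPolynomial in
/-- the functional on the sections over the intersection of the charts -/
theorem exists_lam {A : Type} [CommRing A] (h2 : (2 : A) = 0) {X : Scheme.{0}} {c : A →+* Γ(X, ⊤)}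
    {D₁ D₂ : X.Opens} {z w : Γ(X, D₁)} {x y : Γ(X, D₂)} (h : EC X c D₁ D₂ z w x y) :
    ∃ μ : Γ(X, D₁ ⊓ D₂) →+ A, (∀ a s, μ (cst c _ a * s) = a * μ s) ∧
      (∀ s : Γ(X, D₁), μ (rh inf_le_left s) = 0) ∧ (∀ s : Γ(X, D₂), μ (rh inf_le_right s) = 0) ∧
      μ ((rh inf_le_right x) ^ 2 * rh inf_le_left w) = 1 ∧
      ∀ k : ℕ, μ (((rh inf_le_right x) ^ 2 * rh inf_le_left w) ^ (k + 2)) = 0 := by
  let ι : A[X] →+* N A := (io A).comp toLaurent
  have hι : ι Polynomial.X = io A (T 1) := by
    change io A (toLaurent Polynomial.X) = _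
    rw [Polynomial.toLaurent_X]
  have hy1 : io A (T 1) * io A (T (-1)) = 1 := by
    rw [← map_mul, ← T_add]
    norm_num
  have hrel : (ι Polynomial.X) ^ 2 + ι Polynomial.X = (xi A) ^ 3 := by
    rw [xi_cube, hι, ← map_pow, ← map_add, T_pow]
    norm_num
  obtain ⟨ev, hev⟩ := exists_ev h (ι.comp Polynomial.C) (xi A) (ι Polynomial.X) hrel
  have evc : ∀ b : A, ev (cst c D₂ b) = io A (LaurentPolynomial.C b) := by
    intro b
    have := hev (MvPolynomial.C b)
    rw [MvPolynomial.eval₂_C, MvPolynomial.eval₂_C] at this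
    rw [this]
    change io A (toLaurent (Polynomial.C b)) = _
    rw [Polynomial.toLaurent_C]
  have evx : ev x = xi A := by
    have := hev (MvPolynomial.X 0)
    rwa [MvPolynomial.eval₂_X, MvPolynomial.eval₂_X] at this
  have evy : ev y = io A (T 1) := by
    have := hev (MvPolynomial.X 1)
    rw [MvPolynomial.eval₂_X, MvPolynomial.eval₂_X] at this
    exact this.trans hι
  obtain ⟨E0, hE0⟩ := exists_loc h.af₂ y ev (by rw [evy]; exact IsUnit.of_mul_eq_one _ hy1)
  let E : Γ(X, D₁ ⊓ D₂) →+* N A := E0.comp (rh h.bo₂.le)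
  have hE : ∀ t, E (rh inf_le_right t) = ev t := by
    intro t
    change E0 (rh h.bo₂.le (rh inf_le_right t)) = _
    rw [rh_rh]
    exact hE0 t
  have Ec : ∀ b : A, E (cst c (D₁ ⊓ D₂) b) = io A (LaurentPolynomial.C b) := by
    intro b
    rw [← rh_cst c (inf_le_right : D₁ ⊓ D₂ ≤ D₂), hE, evc]
  have Ew : E (rh inf_le_left w) = io A (T (-1)) := by
    have h1 := congrArg E h.cmpw
    rw [map_mul, map_one, rs_eq, rs_eq, hE, evy] at h1
    linear_combination (io A (T (-1))) * h1 - E (rh inf_le_left w) * hy1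
  have Ez : E (rh inf_le_left z) = xi A * io A (T (-1)) := by
    have h1 := congrArg E h.cmpz
    rw [map_mul, rs_eq, rs_eq, rs_eq, hE, hE, evy, evx] at h1
    linear_combination (io A (T (-1))) * h1 - E (rh inf_le_left z) * hy1
  have hf : E ((rh inf_le_right x) ^ 2 * rh inf_le_left w) = ff A := by
    rw [E.map_mul, E.map_pow, hE, evx, Ew]
    rfl
  refine ⟨(lam A).comp E.toAddMonoidHom, ?_, ?_, ?_, ?_, ?_⟩
  · intro a s
    change lam A (E (cst c _ a * s)) = a * lam A (E s)
    rw [map_mul, Ec, lam_smul]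
  · intro s
    change lam A (E (rh inf_le_left s)) = 0
    obtain ⟨f, rfl⟩ := h.gen₁ s
    have e1 : E (rh inf_le_left (MvPolynomial.eval₂ (cst c D₁) ![z, w] f)) =
        MvPolynomial.eval₂ ((kap (A := A)).comp Polynomial.C) ![xi A * io A (T (-1)), kap Polynomial.X] f := by
      rw [← RingHom.comp_apply, MvPolynomial.eval₂_comp_left]
      congr 1
      · ext1 b
        change E (rh inf_le_left (cst c D₁ b)) = kap (Polynomial.C b)
        rw [rh_cst, Ec, kap_apply, Polynomial.toLaurent_C, LaurentPolynomial.invert_C]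
      · funext i
        fin_cases i
        · exact Ez
        · change E (rh inf_le_left w) = kap Polynomial.X
          rw [Ew, kap_apply, Polynomial.toLaurent_X, LaurentPolynomial.invert_T]
    have h3 : (xi A * io A (T (-1))) ^ 3 = kap (A := A) (Polynomial.X ^ 2 + Polynomial.X) := by
      rw [mul_pow, xi_cube, kap_apply, ← map_pow, ← map_mul, map_add, map_pow,
        Polynomial.toLaurent_X, map_add, map_pow, LaurentPolynomial.invert_T, T_pow, T_pow, add_mul,
        ← T_add, ← T_add]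
      norm_num
      ring
    obtain ⟨p₀, p₁, p₂, hp⟩ := span3 (kap (A := A)) (xi A * io A (T (-1))) h3 f
    rw [e1, hp, lam_minus]
  · intro s
    change lam A (E (rh inf_le_right s)) = 0
    obtain ⟨f, rfl⟩ := h.gen₂ s
    obtain ⟨p₀, p₁, p₂, hp⟩ := span3 ι (xi A) (by rw [map_add, map_pow]; exact hrel.symm) f
    rw [hE, hev, hp]
    exact lam_plus p₀ p₁ p₂
  · change lam A (E _) = 1
    rw [hf]
    exact lam_ff
  · intro k
    change lam A (E _) = 0
    rw [E.map_pow, hf]
    exact lam_ff_pow h2 k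

end Pool.Agent.TH130
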