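import Mathlib

/-!
# The ring of power series over an algebraic closure of `F_2` with coefficients in a finite field
-/

set_option autoImplicit false

open Polynomial

namespace Pool.Agent.TH130

/-- The subring of periodic points of a ring endomorphism. -/
def perSub {R : Type*} [CommRing R] (φ : R →+* R) : Subring R where
  carrier := {x | ∃ n : ℕ, 0 < n ∧ (φ ^ n) x = x}
  one_mem' := ⟨1, one_pos, by simp⟩
  zero_mem' := ⟨1, one_pos, by simp⟩
  mul_mem' := by
    rintro a b ⟨m, hm, ha⟩ ⟨n, hn, hb⟩
    refine ⟨m * n, Nat.mul_pos hm hn, ?_⟩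
    have h1 : ∀ (k : ℕ), ((φ ^ m) ^ k) a = a := by
      intro k
      induction k with
      | zero => simp
      | succ k ih => rw [pow_succ, RingHom.mul_def, RingHom.comp_apply, ha, ih]
    have h2 : ∀ (k : ℕ), ((φ ^ n) ^ k) b = b := by
      intro k
      induction k with
      | zero => simp
      | succ k ih => rw [pow_succ, RingHom.mul_def, RingHom.comp_apply, hb, ih]
    rw [map_mul]
    congr 1
    · rw [pow_mul]; exact h1 n
    · rw [mul_comm, pow_mul]; exact h2 m
  add_mem' := by
    rintro a b ⟨m, hm, ha⟩ ⟨n, hn, hb⟩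
    refine ⟨m * n, Nat.mul_pos hm hn, ?_⟩
    have h1 : ∀ (k : ℕ), ((φ ^ m) ^ k) a = a := by
      intro k
      induction k with
      | zero => simp
      | succ k ih => rw [pow_succ, RingHom.mul_def, RingHom.comp_apply, ha, ih]
    have h2 : ∀ (k : ℕ), ((φ ^ n) ^ k) b = b := by
      intro k
      induction k with
      | zero => simp
      | succ k ih => rw [pow_succ, RingHom.mul_def, RingHom.comp_apply, hb, ih]
    rw [map_add]
    congr 1
    · rw [pow_mul]; exact h1 n
    · rw [mul_comm, pow_mul]; exact h2 m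
  neg_mem' := by
    rintro a ⟨m, hm, ha⟩
    exact ⟨m, hm, by rw [map_neg, ha]⟩

lemma pow_fix {R : Type*} [CommRing R] (φ : R →+* R) {m : ℕ} {a : R} (ha : (φ ^ m) a = a) (k : ℕ) :
    (φ ^ (m * k)) a = a := by
  rw [pow_mul]
  induction k with
  | zero => simp
  | succ k ih => rw [pow_succ, RingHom.mul_def, RingHom.comp_apply, ha, ih]

lemma mem_perSub {R : Type*} [CommRing R] (φ : R →+* R) {x : R} :
    x ∈ perSub φ ↔ ∃ n : ℕ, 0 < n ∧ (φ ^ n) x = x := Iff.rfl

/-- common period -/
lemma exists_common {R : Type*} [CommRing R] (φ : R →+* R) (s : Finset R)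
    (h : ∀ x ∈ s, x ∈ perSub φ) : ∃ n : ℕ, 0 < n ∧ ∀ x ∈ s, (φ ^ n) x = x := by
  classical
  induction s using Finset.induction_on with
  | empty => exact ⟨1, one_pos, by simp⟩
  | insert a s ha ih =>
    obtain ⟨n, hn, hs⟩ := ih (fun x hx => h x (Finset.mem_insert_of_mem hx))
    obtain ⟨m, hm, ha'⟩ := h a (Finset.mem_insert_self _ _)
    refine ⟨m * n, Nat.mul_pos hm hn, ?_⟩
    intro x hx
    rcases Finset.mem_insert.1 hx with rfl | hx
    · exact pow_fix φ ha' n
    · rw [mul_comm]; exact pow_fix φ (hs x hx) m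

/-- uniqueness in Hensel's lemma -/
lemma root_unique {R : Type*} [CommRing R] [IsLocalRing R] (f : R[X]) (b b' : R)
    (hb : f.eval b = 0) (hb' : f.eval b' = 0) (hbb : b' - b ∈ IsLocalRing.maximalIdeal R)
    (hd : IsUnit (f.derivative.eval b)) : b' = b := by
  obtain ⟨k, hk⟩ := f.binomExpansion b (b' - b)
  rw [add_sub_cancel, hb', hb, zero_add] at hk
  have h1 : 0 = (b' - b) * (f.derivative.eval b + k * (b' - b)) := by
    rw [hk]; ring
  have h2 : IsUnit (f.derivative.eval b + k * (b' - b)) := by
    by_contra hc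
    have h3 : f.derivative.eval b + k * (b' - b) ∈ IsLocalRing.maximalIdeal R := hc
    have h4 : f.derivative.eval b ∈ IsLocalRing.maximalIdeal R := by
      have := Ideal.sub_mem _ h3 (Ideal.mul_mem_left _ k hbb)
      simpa using this
    exact h4 hd
  have h3 := (h2.mul_left_eq_zero).1 h1.symm
  exact sub_eq_zero.1 h3

/-- `k = ` an algebraic closure of `F_2` -/
abbrev kk : Type := AlgebraicClosure (ZMod 2)

instance : CharP kk 2 := inferInstance

/-- the Frobenius endomorphism of `k[[t]]` acting on the coefficients -/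
noncomputable def phi : PowerSeries kk →+* PowerSeries kk := PowerSeries.map (frobenius kk 2)

lemma coeff_phi (f : PowerSeries kk) (i : ℕ) :
    PowerSeries.coeff i (phi f) = (PowerSeries.coeff i f) ^ 2 := by
  simp [phi, frobenius_def]

lemma coeff_phi_pow (n : ℕ) (f : PowerSeries kk) (i : ℕ) :
    PowerSeries.coeff i ((phi ^ n) f) = (PowerSeries.coeff i f) ^ (2 ^ n) := by
  induction n with
  | zero => simp
  | succ n ih =>
    rw [pow_succ', RingHom.mul_def, RingHom.comp_apply, coeff_phi, ih, ← pow_mul, ← pow_succ]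

/-- `A`: the power series in `t` with coefficients in an algebraic closure `k` of `F_2`, all of
which lie in one finite subfield (that is, are fixed by one power `x ↦ x ^ (2 ^ n)`, `n > 0`, of the
Frobenius map). It is the strict henselisation of `F_2[[t]]`. -/
noncomputable def AA : Subring (PowerSeries kk) := perSub phi

lemma mem_AA {f : PowerSeries kk} :
    f ∈ AA ↔ ∃ n : ℕ, 0 < n ∧ ∀ i, (PowerSeries.coeff i f) ^ (2 ^ n) = PowerSeries.coeff i f := by
  constructor
  · rintro ⟨n, hn, h⟩
    exact ⟨n, hn, fun i => by rw [← coeff_phi_pow, h]⟩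
  · rintro ⟨n, hn, h⟩
    refine ⟨n, hn, ?_⟩
    ext i
    rw [coeff_phi_pow, h]

/-- every element of `k` is periodic -/
lemma exists_period (c : kk) : ∃ n : ℕ, 0 < n ∧ c ^ (2 ^ n) = c := by
  have hint : IsIntegral (ZMod 2) c := Algebra.IsIntegral.isIntegral c
  have hfin : Finite (Algebra.adjoin (ZMod 2) {c}) := by
    have : Module.Finite (ZMod 2) (Algebra.adjoin (ZMod 2) {c}) :=
      ⟨(Submodule.fg_top _).2 hint.fg_adjoin_singleton⟩
    exact Module.finite_of_finite (ZMod 2)
  -- the map `x ↦ x ^ 2` is injective on the finite ring, so periodic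
  let F : Algebra.adjoin (ZMod 2) {c} → Algebra.adjoin (ZMod 2) {c} := fun x => x ^ 2
  have hF : Function.Injective F := by
    intro x y hxy
    apply Subtype.ext
    have h : (x : kk) ^ 2 = (y : kk) ^ 2 := congrArg Subtype.val hxy
    exact frobenius_inj kk 2 h
  obtain ⟨n, hn, hper⟩ := hF.mem_periodicPts ⟨c, Algebra.self_mem_adjoin_singleton _ _⟩
  refine ⟨n, hn, ?_⟩
  have h2 : ∀ (m : ℕ) (x : Algebra.adjoin (ZMod 2) {c}), F^[m] x = x ^ (2 ^ m) := by
    intro m
    induction m with
    | zero => intro x; simp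
    | succ m ih =>
      intro x
      rw [Function.iterate_succ_apply, ih, pow_succ', pow_mul]
  have h3 : F^[n] _ = _ := hper
  rw [h2] at h3
  exact congrArg Subtype.val h3


/-- elements of `A` from a finite set of coefficients -/
lemma mem_AA_of_finite (f : PowerSeries kk) (s : Finset kk) (h : ∀ i, PowerSeries.coeff i f ∈ s) :
    f ∈ AA := by
  obtain ⟨n, hn, hs⟩ := exists_common (frobenius kk 2) s (fun x _ => by
    obtain ⟨n, hn, hx⟩ := exists_period x
    refine ⟨n, hn, ?_⟩
    have h2 : ∀ (m : ℕ) (y : kk), (frobenius kk 2 ^ m) y = y ^ (2 ^ m) := by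
      intro m
      induction m with
      | zero => intro y; simp
      | succ m ih =>
        intro y
        rw [pow_succ, RingHom.mul_def, RingHom.comp_apply, ih, frobenius_def, ← pow_mul, ← pow_succ']
    rw [h2, hx])
  rw [mem_AA]
  refine ⟨n, hn, fun i => ?_⟩
  have h2 : ∀ (m : ℕ) (y : kk), (frobenius kk 2 ^ m) y = y ^ (2 ^ m) := by
    intro m
    induction m with
    | zero => intro y; simp
    | succ m ih =>
      intro y
      rw [pow_succ, RingHom.mul_def, RingHom.comp_apply, ih, frobenius_def, ← pow_mul, ← pow_succ']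
  rw [← h2]
  exact hs _ (h i)

lemma X_mem : (PowerSeries.X : PowerSeries kk) ∈ AA := by
  classical
  apply mem_AA_of_finite _ {0, 1}
  intro i
  rw [PowerSeries.coeff_X]
  split_ifs <;> simp

lemma poly_mem (f : Polynomial kk) : (f : PowerSeries kk) ∈ AA := by
  classical
  apply mem_AA_of_finite _ (insert 0 (f.support.image f.coeff))
  intro i
  rw [Polynomial.coeff_coe]
  by_cases h : f.coeff i = 0
  · rw [h]; exact Finset.mem_insert_self _ _
  · exact Finset.mem_insert_of_mem (Finset.mem_image_of_mem _ (Polynomial.mem_support_iff.2 h))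

/-- the uniformiser -/
noncomputable def tt : AA := ⟨PowerSeries.X, X_mem⟩

lemma isUnit_iff (f : AA) : IsUnit f ↔ IsUnit (f : PowerSeries kk) := by
  constructor
  · intro h; exact h.map AA.subtype
  · intro h
    obtain ⟨g, hg⟩ := h.exists_right_inv
    obtain ⟨n, hn, hf⟩ := f.2
    have h2 : (phi ^ n) g = g := by
      have h3 := congrArg (phi ^ n) hg
      rw [map_mul, hf, map_one] at h3
      exact h.mul_left_cancel (h3.trans hg.symm)
    exact IsUnit.of_mul_eq_one (⟨g, n, hn, h2⟩ : AA) (Subtype.ext hg)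

lemma tt_not_unit : ¬ IsUnit tt := by
  rw [isUnit_iff]
  exact PowerSeries.X_prime.not_isUnit

/-- division by powers of `t` -/
lemma dvd_iff (n : ℕ) (f : AA) : tt ^ n ∣ f ↔ (PowerSeries.X : PowerSeries kk) ^ n ∣ (f : PowerSeries kk) := by
  constructor
  · rintro ⟨g, hg⟩
    exact ⟨g, by rw [hg]; rfl⟩
  · rintro ⟨g, hg⟩
    obtain ⟨m, hm, hf⟩ := f.2
    have hX : (phi ^ m) (PowerSeries.X : PowerSeries kk) = PowerSeries.X := by
      ext i
      rw [coeff_phi_pow, PowerSeries.coeff_X]
      split_ifs
      · rw [one_pow]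
      · rw [zero_pow (by positivity)]
    have h2 : (phi ^ m) g = g := by
      have h3 := congrArg (phi ^ m) hg
      rw [hf, map_mul, map_pow, hX, hg] at h3
      exact (mul_left_cancel₀ (pow_ne_zero n PowerSeries.X_ne_zero) h3).symm
    exact ⟨⟨g, m, hm, h2⟩, Subtype.ext hg⟩

lemma exists_unit_pow (f : AA) (hf : f ≠ 0) : ∃ n : ℕ, Associated (tt ^ n) f := by
  have hf' : (f : PowerSeries kk) ≠ 0 := fun h => hf (Subtype.ext h)
  obtain ⟨g, hg⟩ := (dvd_iff (PowerSeries.order (f : PowerSeries kk)).toNat f).2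
    (by
      rw [PowerSeries.X_pow_dvd_iff]
      intro m hm
      apply PowerSeries.coeff_of_lt_order
      refine lt_of_lt_of_le (WithTop.coe_lt_coe.2 hm) ?_
      exact ENat.natCast_toNat_le_self _)
  refine ⟨(PowerSeries.order (f : PowerSeries kk)).toNat, ?_⟩
  have hu : IsUnit g := by
    rw [isUnit_iff, PowerSeries.isUnit_iff_constantCoeff]
    have h3 : (f : PowerSeries kk) = PowerSeries.X ^ (PowerSeries.order (f : PowerSeries kk)).toNat *
      (g : PowerSeries kk) := congrArg Subtype.val hg
    have h4 := congrArg (PowerSeries.coeff (PowerSeries.order (f : PowerSeries kk)).toNat) h3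
    have h5 := PowerSeries.coeff_X_pow_mul (g : PowerSeries kk)
      (PowerSeries.order (f : PowerSeries kk)).toNat 0
    rw [zero_add] at h5
    rw [h5, PowerSeries.coeff_zero_eq_constantCoeff] at h4
    rw [← h4]
    exact (PowerSeries.coeff_order hf').isUnit
  obtain ⟨u, rfl⟩ := hu
  exact ⟨u, hg.symm⟩

lemma tt_irreducible : Irreducible tt := by
  refine ⟨tt_not_unit, ?_⟩
  intro a b h
  have h2 : (PowerSeries.X : PowerSeries kk) = (a : PowerSeries kk) * (b : PowerSeries kk) :=
    congrArg Subtype.val h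
  rcases PowerSeries.X_prime.irreducible.isUnit_or_isUnit h2 with h3 | h3
  · left; rwa [isUnit_iff]
  · right; rwa [isUnit_iff]

instance : IsDiscreteValuationRing AA :=
  IsDiscreteValuationRing.ofHasUnitMulPowIrreducibleFactorization
    ⟨tt, tt_irreducible, fun {x} hx => exists_unit_pow x hx⟩

lemma maxIdeal_AA : IsLocalRing.maximalIdeal AA = Ideal.span {tt} :=
  tt_irreducible.maximalIdeal_eq

lemma mem_max_iff (f : AA) : f ∈ IsLocalRing.maximalIdeal AA ↔
    (f : PowerSeries kk) ∈ IsLocalRing.maximalIdeal (PowerSeries kk) := by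
  rw [IsLocalRing.mem_maximalIdeal, IsLocalRing.mem_maximalIdeal, mem_nonunits_iff,
    mem_nonunits_iff, isUnit_iff]

lemma henselian_ps : HenselianLocalRing (PowerSeries kk) := by
  have h2 : IsAdicComplete (IsLocalRing.maximalIdeal (PowerSeries kk)) (PowerSeries kk) := by
    rw [PowerSeries.maximalIdeal_eq_span_X]
    infer_instance
  have h3 : HenselianRing (PowerSeries kk) (IsLocalRing.maximalIdeal (PowerSeries kk)) := inferInstance
  refine { is_henselian := ?_ }
  intro f hf a₀ h₁ h₂
  exact h3.is_henselian f hf a₀ h₁ (h₂.map _)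

instance henselian_AA : HenselianLocalRing AA := by
  classical
  refine { is_henselian := ?_ }
  intro f hf a₀ h₁ h₂
  let g : (PowerSeries kk)[X] := f.map AA.subtype
  have hev : ∀ (q : AA[X]) (a : AA), (q.map AA.subtype).eval (a : PowerSeries kk) =
      ((q.eval a : AA) : PowerSeries kk) := by
    intro q a
    have := Polynomial.eval_map_apply (f := AA.subtype) (p := q) a
    exact this
  have hg : g.Monic := hf.map _
  obtain ⟨b, hb, hba⟩ := henselian_ps.is_henselian g hg (a₀ : PowerSeries kk)
    (by rw [hev, ← mem_max_iff]; exact h₁)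
    (by
      have : g.derivative = f.derivative.map AA.subtype := Polynomial.derivative_map _ _
      rw [this, hev, ← isUnit_iff]
      exact h₂)
  -- a common period
  obtain ⟨n, hn, hs⟩ := exists_common phi
    (insert (a₀ : PowerSeries kk) ((Finset.range (f.natDegree + 1)).image
      (fun i => ((f.coeff i : AA) : PowerSeries kk)))) (by
    intro x hx
    rcases Finset.mem_insert.1 hx with rfl | hx
    · exact a₀.2
    · obtain ⟨i, -, rfl⟩ := Finset.mem_image.1 hx
      exact (f.coeff i).2)
  have hgφ : g.map (phi ^ n) = g := by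
    ext1 i
    rw [Polynomial.coeff_map, Polynomial.coeff_map]
    by_cases hi : i ≤ f.natDegree
    · exact hs _ (Finset.mem_insert_of_mem (Finset.mem_image.2
        ⟨i, Finset.mem_range.2 (Nat.lt_succ_of_le hi), rfl⟩))
    · rw [Polynomial.coeff_eq_zero_of_natDegree_lt (not_le.1 hi), map_zero, map_zero]
  have hb' : g.eval ((phi ^ n) b) = 0 := by
    have h := Polynomial.eval_map_apply (f := phi ^ n) (p := g) b
    rw [hgφ] at h
    rw [h, hb.eq_zero, map_zero]
  have hbb : (phi ^ n) b - b ∈ IsLocalRing.maximalIdeal (PowerSeries kk) := by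
    have h3 : (phi ^ n) b - (a₀ : PowerSeries kk) ∈ IsLocalRing.maximalIdeal (PowerSeries kk) := by
      have h4 : (phi ^ n) b - (a₀ : PowerSeries kk) = (phi ^ n) (b - a₀) := by
        rw [map_sub, hs _ (Finset.mem_insert_self _ _)]
      rw [h4]
      rw [PowerSeries.maximalIdeal_eq_span_X, Ideal.mem_span_singleton, PowerSeries.X_dvd_iff,
        ← PowerSeries.coeff_zero_eq_constantCoeff_apply] at hba ⊢
      rw [coeff_phi_pow, hba, zero_pow (by positivity)]
    have h5 := Ideal.sub_mem _ h3 hba
    simpa using h5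
  have hd : IsUnit (g.derivative.eval b) := by
    have h6 : IsUnit (g.derivative.eval (a₀ : PowerSeries kk)) := by
      have : g.derivative = f.derivative.map AA.subtype := Polynomial.derivative_map _ _
      rw [this, hev, ← isUnit_iff]
      exact h₂
    by_contra hc
    have h7 : g.derivative.eval b ∈ IsLocalRing.maximalIdeal (PowerSeries kk) := hc
    obtain ⟨c, hc'⟩ := Polynomial.sub_dvd_eval_sub b (a₀ : PowerSeries kk) g.derivative
    have h8 : g.derivative.eval (a₀ : PowerSeries kk) ∈ IsLocalRing.maximalIdeal (PowerSeries kk) := by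
      have h9 : g.derivative.eval (a₀ : PowerSeries kk) = g.derivative.eval b - (b - a₀) * c := by
        rw [← hc']; ring
      rw [h9]
      exact Ideal.sub_mem _ h7 (Ideal.mul_mem_right _ _ hba)
    exact h8 h6
  have hfix : (phi ^ n) b = b := root_unique g b _ hb.eq_zero hb' hbb hd
  refine ⟨⟨b, n, hn, hfix⟩, ?_, ?_⟩
  · have h := hev f ⟨b, n, hn, hfix⟩
    have h' : ((f.eval ⟨b, n, hn, hfix⟩ : AA) : PowerSeries kk) = 0 := h.symm.trans hb.eq_zero
    exact Subtype.ext h'
  · rw [mem_max_iff]
    exact hba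

instance : CharP AA 2 := by
  have : CharP (PowerSeries kk) 2 :=
    charP_of_injective_ringHom (f := PowerSeries.C (R := kk)) PowerSeries.C_injective 2
  exact (RingHom.charP_iff AA.subtype Subtype.val_injective 2).2 this

lemma charP_res : CharP (IsLocalRing.ResidueField AA) 2 := by
  refine (CharP.charP_iff_prime_eq_zero Nat.prime_two).mpr ?_
  rw [← map_natCast (IsLocalRing.residue AA), CharP.cast_eq_zero, map_zero]

end Pool.Agent.TH130
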