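import Pool.Agent.H835R5.Fin
import Pool.Agent.TH130.Aff

/-!
# The infinitesimal thickenings: sections over affine opens
-/

set_option autoImplicit false

open CategoryTheory AlgebraicGeometry TopologicalSpace Opposite Limits Abelian
open Pool.Agent.H835R5

namespace Pool.Agent.TH130

/-- constants for a general structure map -/
noncomputable def cF {X : Scheme.{0}} {R : Type} [CommRing R] (f : X ⟶ Spec (.of R)) :
    R →+* Γ(X, ⊤) :=
  (f.appTop.hom).comp (Scheme.ΓSpecIso (.of R)).inv.hom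

lemma app_cst {X Y : Scheme.{0}} (i : Y ⟶ X) {A : Type} [CommRing A] (c : A →+* Γ(X, ⊤))
    (W : X.Opens) (a : A) : (i.app W).hom (cst c W a) =
      (Y.presheaf.map (homOfLE (le_top : i ⁻¹ᵁ W ≤ ⊤)).op).hom (i.appTop.hom (c a)) := by
  have h := i.naturality (homOfLE (le_top : W ≤ ⊤)).op
  exact congrArg (fun φ => φ.hom (c a)) h

variable {A : Type} [CommRing A]

lemma thick_cst {X : Scheme.{0}} (f : X ⟶ Spec (.of A)) (π : A) (n : ℕ) (W : X.Opens) :
    ((thickening f π n).app W).hom (cst (cF f) W (π ^ n)) = 0 := by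
  rw [app_cst]
  have h1 : ((thickening f π n).appTop).hom (cF f (π ^ n)) = 0 := by
    have h2 : (thickening f π n ≫ f).appTop = (pullback.snd f (Spec.map (CommRingCat.ofHom
      (Ideal.Quotient.mk (Ideal.span {π ^ n})))) ≫
        Spec.map (CommRingCat.ofHom
      (Ideal.Quotient.mk (Ideal.span {π ^ n})))).appTop :=
      congrArg Scheme.Hom.appTop (pullback.condition (f := f))
    have h3 := congrArg (fun φ => φ.hom ((Scheme.ΓSpecIso (.of A)).inv.hom
      (π ^ n))) h2
    have h4 : ((Spec.map (CommRingCat.ofHom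
      (Ideal.Quotient.mk (Ideal.span {π ^ n})))).appTop).hom
        ((Scheme.ΓSpecIso (.of A)).inv.hom (π ^ n)) = 0 := by
      have h5 := Scheme.ΓSpecIso_inv_naturality (CommRingCat.ofHom
        (Ideal.Quotient.mk (Ideal.span {π ^ n})))
      have h6 := congrArg (fun φ => φ.hom (π ^ n)) h5
      have h7 : (Ideal.Quotient.mk (Ideal.span {π ^ n}))
        (π ^ n) = 0 := Ideal.Quotient.eq_zero_iff_mem.2 (Ideal.mem_span_singleton_self _)
      refine h6.symm.trans ?_
      simp only [CommRingCat.hom_comp, CommRingCat.hom_ofHom, RingHom.comp_apply]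
      rw [h7, map_zero]
    refine h3.trans ?_
    simp only [Scheme.Hom.comp_appTop, CommRingCat.hom_comp, RingHom.comp_apply]
    refine (congrArg _ h4).trans (map_zero _)
  rw [h1, map_zero]

lemma fromSpec_comp {X : Scheme.{0}} (f : X ⟶ Spec (.of A)) {V : X.Opens} (hV : IsAffineOpen V) :
    hV.fromSpec ≫ f = Spec.map (CommRingCat.ofHom (cst (cF f) V)) := by
  obtain ⟨ψ, hψ⟩ := Spec.map_surjective (hV.fromSpec ≫ f)
  rw [← hψ]
  congr 1
  have h1 := Scheme.ΓSpecIso_inv_naturality ψ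
  rw [hψ, Scheme.Hom.comp_appTop] at h1
  have h2 : hV.fromSpec.appTop = X.presheaf.map (homOfLE le_top).op ≫
      (Scheme.ΓSpecIso Γ(X, V)).inv := by
    have h3 := hV.fromSpec_app_of_le ⊤ le_top
    exact h3
  rw [h2, ← Category.assoc, ← Category.assoc, Iso.cancel_iso_inv_right] at h1
  rw [h1]
  rfl

/-- the kernel of the restriction to the thickening over an affine open -/
lemma ker_thick {X : Scheme.{0}} (f : X ⟶ Spec (.of A)) (π : A) (n : ℕ)
    {V : X.Opens} (hV : IsAffineOpen V) (a : Γ(X, V))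
    (ha : ((thickening f π n).app V).hom a = 0) :
    ∃ b, a = cst (cF f) V (π ^ n) * b := by
  let I : Ideal Γ(X, V) := Ideal.span {cst (cF f) V (π ^ n)}
  let q : Γ(X, V) →+* Γ(X, V) ⧸ I := Ideal.Quotient.mk I
  let ψ : A ⧸ (Ideal.span {π ^ n}) →+* Γ(X, V) ⧸ I :=
    Ideal.Quotient.lift _ (q.comp (cst (cF f) V)) (by
      intro b hb
      obtain ⟨c, rfl⟩ := Ideal.mem_span_singleton'.1 hb
      rw [RingHom.comp_apply, map_mul, Ideal.Quotient.eq_zero_iff_mem]
      exact I.mul_mem_left _ (Ideal.mem_span_singleton_self _))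
  let g : Spec (.of (Γ(X, V) ⧸ I)) ⟶ X := Spec.map (CommRingCat.ofHom q) ≫ hV.fromSpec
  have hg : g ≫ f = Spec.map (CommRingCat.ofHom ψ) ≫
      Spec.map (CommRingCat.ofHom (Ideal.Quotient.mk (Ideal.span {π ^ n}))) := by
    rw [Category.assoc, fromSpec_comp f hV, ← Spec.map_comp, ← Spec.map_comp]
    congr 1
  let ℓ : Spec (.of (Γ(X, V) ⧸ I)) ⟶ _ := pullback.lift g (Spec.map (CommRingCat.ofHom ψ)) hg
  have hℓ : ℓ ≫ thickening f π n = g := pullback.lift_fst _ _ _
  have hgV : ⊤ ≤ g ⁻¹ᵁ V := by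
    have h1 : hV.fromSpec ⁻¹ᵁ V = ⊤ := hV.fromSpec_preimage_self
    change ⊤ ≤ (Spec.map (CommRingCat.ofHom q)) ⁻¹ᵁ (hV.fromSpec ⁻¹ᵁ V)
    rw [h1]
    exact le_rfl
  have h1 : (g.appLE V ⊤ hgV).hom a = 0 := by
    have h2 : ⊤ ≤ ℓ ⁻¹ᵁ (thickening f π n ⁻¹ᵁ V) := by
      rw [← hℓ] at hgV
      exact hgV
    have h3 : (thickening f π n).app V ≫ ℓ.appLE _ ⊤ h2 = g.appLE V ⊤ hgV := by
      rw [Scheme.Hom.app_eq_appLE, Scheme.Hom.appLE_comp_appLE]
      simp only [hℓ]
    rw [← h3, CommRingCat.hom_comp, RingHom.comp_apply, ha, map_zero]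
  have h2 : g.appLE V ⊤ hgV = CommRingCat.ofHom q ≫ (Scheme.ΓSpecIso (.of (Γ(X, V) ⧸ I))).inv := by
    have h3 : ⊤ ≤ hV.fromSpec ⁻¹ᵁ V := hV.fromSpec_preimage_self.ge
    have h4 : hV.fromSpec.appLE V ⊤ h3 ≫ (Spec.map (CommRingCat.ofHom q)).appLE ⊤ ⊤ le_top =
      g.appLE V ⊤ hgV := Scheme.Hom.appLE_comp_appLE _ _ _ _ _ _ _
    have h5 : hV.fromSpec.appLE V ⊤ h3 = (Scheme.ΓSpecIso Γ(X, V)).inv := by
      rw [Scheme.Hom.appLE, hV.fromSpec_app_self, Category.assoc, ← Functor.map_comp]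
      have h6 : (Spec Γ(X, V)).presheaf.map ((eqToHom hV.fromSpec_preimage_self).op ≫
        (homOfLE h3).op) = 𝟙 _ := (Spec Γ(X, V)).presheaf.map_id _
      rw [h6, Category.comp_id]
    have h7 : (Spec.map (CommRingCat.ofHom q)).appLE ⊤ ⊤ le_top =
      (Spec.map (CommRingCat.ofHom q)).appTop := by
      rw [Scheme.Hom.appLE]
      exact (congrArg _ ((Spec _).presheaf.map_id _)).trans (Category.comp_id _)
    rw [← h4, h5, h7]
    exact (Scheme.ΓSpecIso_inv_naturality _).symm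
  rw [h2, CommRingCat.hom_comp, RingHom.comp_apply, CommRingCat.hom_ofHom] at h1
  have h3 : q a = 0 := by
    have h4 := congrArg (Scheme.ΓSpecIso (.of (Γ(X, V) ⧸ I))).hom.hom h1
    rw [map_zero] at h4
    rw [← h4]
    exact (congrArg (fun φ => φ.hom (q a))
      (Scheme.ΓSpecIso (.of (Γ(X, V) ⧸ I))).inv_hom_id).symm
  obtain ⟨b, hb⟩ := Ideal.mem_span_singleton'.1 (Ideal.Quotient.eq_zero_iff_mem.1 h3)
  exact ⟨b, by rw [← hb, mul_comm]⟩

instance thick_closed {X : Scheme.{0}} (f : X ⟶ Spec (.of A)) (π : A) (n : ℕ) :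
    IsClosedImmersion (thickening f π n) := by
  have h : IsClosedImmersion (Spec.map (CommRingCat.ofHom (Ideal.Quotient.mk
    (Ideal.span {π ^ n})))) := IsClosedImmersion.spec_of_surjective _ Ideal.Quotient.mk_surjective
  unfold thickening
  infer_instance

/-- surjectivity of the restriction to the thickening over an affine open -/
lemma surj_thick {X : Scheme.{0}} (f : X ⟶ Spec (.of A)) (π : A) (n : ℕ)
    {V : X.Opens} (hV : IsAffineOpen V) :
    Function.Surjective ((thickening f π n).app V).hom :=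
  (thickening f π n).app_surjective V hV

end Pool.Agent.TH130
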