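import Pool.Agent.TH130.ResDefs
import Pool.Agent.TH130.Thick
import Pool.Agent.TH130.Dlog

/-!
# MP_55d974_ag: the cohomological part of the argument
-/

set_option autoImplicit false

open CategoryTheory AlgebraicGeometry TopologicalSpace Opposite Limits Abelian
open Pool.Agent.H835R5
open Pool.Agent.H835R5.Spl (rh rs_eq rh_rh rh_cst)

namespace Pool.Agent.TH130

attribute [local instance high] hshT hwT hextT

section

variable {T : TopCat.{0}}

/-- the constant sheaf is free on the whole space -/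
noncomputable def isoZ (V : Opens T) (hV : V = ⊤) :
    (constantSheaf (Opens.grothendieckTopology T) AddCommGrpCat.{0}).obj
      (AddCommGrpCat.of (ULift.{0} ℤ)) ≅ ZZ V :=
  (presheafToSheaf _ _).mapIso (presIso V hV)

/-- comparison of the first cohomology groups -/
noncomputable def toHU {F : ShT T} (V : Opens T) (hV : V = ⊤) : HA F →+ HU F V where
  toFun κ := (Ext.mk₀ (isoZ V hV).inv).comp (show Sheaf.H F 1 from κ) (zero_add 1)
  map_zero' := Ext.comp_zero _ _ _ _ _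
  map_add' _ _ := Ext.comp_add _ _ _ _

/-- comparison of the first cohomology groups -/
noncomputable def ofHU {F : ShT T} (V : Opens T) (hV : V = ⊤) (κ : HU F V) : HA F :=
  (show Sheaf.H F 1 from (Ext.mk₀ (isoZ V hV).hom).comp κ (zero_add 1))

lemma toHU_ofHU {F : ShT T} (V : Opens T) (hV : V = ⊤) (κ : HU F V) :
    toHU V hV (ofHU V hV κ) = κ := by
  change (Ext.mk₀ (isoZ V hV).inv).comp ((Ext.mk₀ (isoZ V hV).hom).comp κ (zero_add 1))
    (zero_add 1) = κ
  rw [Ext.mk₀_comp_mk₀_assoc, Iso.inv_hom_id, Ext.mk₀_id_comp]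

lemma toHU_map {F G : ShT T} (V : Opens T) (hV : V = ⊤) (f : F ⟶ G) (κ : HA F) :
    toHU V hV (HA.map f κ) = (toHU V hV κ).comp (Ext.mk₀ f) (add_zero 1) := by
  change (Ext.mk₀ (isoZ V hV).inv).comp ((show Sheaf.H F 1 from κ).comp (Ext.mk₀ f) (add_zero 1))
    (zero_add 1) = ((Ext.mk₀ (isoZ V hV).inv).comp (show Sheaf.H F 1 from κ) (zero_add 1)).comp
      (Ext.mk₀ f) (add_zero 1)
  rw [Ext.comp_assoc_of_third_deg_zero]

lemma map_ofHU {F G : ShT T} (V : Opens T) (hV : V = ⊤) (f : F ⟶ G) (κ : HU F V) :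
    HA.map f (ofHU V hV κ) = ofHU V hV (κ.comp (Ext.mk₀ f) (add_zero 1)) := by
  change ((Ext.mk₀ (isoZ V hV).hom).comp κ (zero_add 1)).comp (Ext.mk₀ f) (add_zero 1) =
    (Ext.mk₀ (isoZ V hV).hom).comp (κ.comp (Ext.mk₀ f) (add_zero 1)) (zero_add 1)
  rw [Ext.comp_assoc_of_third_deg_zero]

end

/-- the derivation induced on a thickening -/
theorem exists_der_thick {A : Type} [CommRing A] {X : Scheme.{0}} (f : X ⟶ Spec (.of A)) (π : A)
    (n : ℕ) (d : DerX X) (hd : ∀ U : X.Opens, d.D U (cst (cF f) U (π ^ n)) = 0) :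
    ∃ δ' : DerP (pushP (thickening f π n)), ∀ (U : (Opens X.toTopCat)ᵒᵖ) (a : X.presheaf.obj U),
      δ'.d U (((pushMap (thickening f π n)).app U).hom a) =
        ((pushMap (thickening f π n)).app U).hom ((ofDerX d).d U a) := by
  have hbas : ∀ (U : X.Opens) (x : X), x ∈ U → ∃ V : X.Opens, IsAffineOpen V ∧ V ≤ U ∧ x ∈ V := by
    intro U x hx
    obtain ⟨V, hV, hxV, hVU⟩ := (TopologicalSpace.Opens.isBasis_iff_nbhd.mp X.isBasis_affineOpens) hx
    exact ⟨V, hV, hVU, hxV⟩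
  refine exists_descend (ofDerX d) (pushMap (thickening f π n)) X.sheaf.2 (pushP_isSheaf _) ?_ ?_
  · intro U s x hx
    obtain ⟨V, hV, hVU, hxV⟩ := hbas U x hx
    obtain ⟨r, hr⟩ := surj_thick f π n hV (((pushP (thickening f π n)).map (homOfLE hVU).op).hom s)
    exact ⟨V, homOfLE hVU, hxV, r, hr⟩
  · intro U r hr
    let S : TopCat.Sheaf CommRingCat.{0} X.toTopCat := ⟨pushP (thickening f π n), pushP_isSheaf _⟩
    choose V hV hVU hxV using fun x : U.unop => hbas U.unop x.1 x.2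
    refine TopCat.Sheaf.eq_of_locally_eq' S V U.unop (fun x => homOfLE (hVU x))
      (fun x hx => Opens.mem_iSup.2 ⟨⟨x, hx⟩, hxV ⟨x, hx⟩⟩) _ _ ?_
    intro x
    have hnat : ∀ a : X.presheaf.obj U, ((pushP (thickening f π n)).map (homOfLE (hVU x)).op).hom
        (((pushMap (thickening f π n)).app U).hom a) =
          ((pushMap (thickening f π n)).app (op (V x))).hom
            ((X.presheaf.map (homOfLE (hVU x)).op).hom a) := by
      intro a
      exact (congrArg (fun ψ => ψ.hom a) ((pushMap (thickening f π n)).naturality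
        (homOfLE (hVU x)).op)).symm
    have h1 := hnat r
    rw [hr, map_zero] at h1
    obtain ⟨b, hb⟩ := ker_thick f π n (hV x) _ h1.symm
    refine (hnat _).trans ((Eq.trans ?_ (map_zero ((pushP (thickening f π n)).map
      (homOfLE (hVU x)).op).hom).symm))
    have h2 : (X.presheaf.map (homOfLE (hVU x)).op).hom ((ofDerX d).d U r) =
        cst (cF f) (V x) (π ^ n) * d.D (V x) b := by
      rw [← (ofDerX d).nat, hb]
      refine (d.leib _ _ _).trans ?_
      rw [hd, mul_zero, add_zero]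
    have h3 : ((pushMap (thickening f π n)).app (op (V x))).hom
        (cst (cF f) (V x) (π ^ n)) = 0 := thick_cst f π n (V x)
    rw [h2, map_mul, h3, zero_mul]

/-- the additive map of sheaves to the thickening -/
noncomputable def toThick {A : Type} [CommRing A] {X : Scheme.{0}} (f : X ⟶ Spec (.of A)) (π : A)
    (n : ℕ) : OX X ⟶ addSh (pushP (thickening f π n)) (pushP_isSheaf _) :=
  addMapS (pushMap (thickening f π n)) X.sheaf.2 (pushP_isSheaf _)

/-- **The key comparison.** -/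
theorem key_compare {A : Type} [CommRing A] {X : Scheme.{0}} (f : X ⟶ Spec (.of A)) (π : A)
    (D₁ D₂ : X.Opens) (hcov : D₁ ⊔ D₂ = ⊤) (af₁ : IsAffineOpen D₁) (af₂ : IsAffineOpen D₂)
    (af : IsAffineOpen (D₁ ⊓ D₂)) (h2 : (2 : Γ(X, ⊤)) = 0) (d : DerX X) (M : HX X) :
    ∃ g : Γ(X, D₁ ⊓ D₂), ∀ (n : ℕ), (∀ U : X.Opens, d.D U (cst (cF f) U (π ^ n)) = 0) →
      ∀ (G G' : Γ(X, D₁ ⊓ D₂)) (u : UnitsOn (pushP (thickening f π n)) (op (D₁ ⊓ D₂))),
        u.val = ((thickening f π n).app (D₁ ⊓ D₂)).hom G →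
        (-u).val = ((thickening f π n).app (D₁ ⊓ D₂)).hom G' →
        ∀ N : Hn f π n, (ofHU (F := unitsSheaf (pushP (thickening f π n)) (pushP_isSheaf _))
          (D₁ ⊔ D₂) hcov (del D₁ D₂ u) : Hn f π n) = resN f π n M + (N + N) →
        ∃ (α : Γ(X, D₁)) (β : Γ(X, D₂)) (γ : Γ(X, D₁ ⊓ D₂)),
          G' * d.D _ G = g + rh inf_le_left α + rh inf_le_right β + cst (cF f) _ (π ^ n) * γ := by
  -- the logarithmic derivative of `M`
  let κ : HU (unitsSheaf X.presheaf X.sheaf.2) (D₁ ⊔ D₂) := toHU (D₁ ⊔ D₂) hcov M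
  let ε : HU (OX X) (D₁ ⊔ D₂) := κ.comp (Ext.mk₀ (dlogS (ofDerX d) X.sheaf.2)) (add_zero 1)
  obtain ⟨g, hg⟩ : ∃ g : Γ(X, D₁ ⊓ D₂), ε = del (F := OX X) D₁ D₂ g :=
    mv_exact D₁ D₂ ε (affine_vanish af₁ _) (affine_vanish af₂ _)
  refine ⟨g, ?_⟩
  intro n hd G G' u hu hu' N hN
  obtain ⟨δ', hδ'⟩ := exists_der_thick f π n d hd
  let Un := unitsSheaf (pushP (thickening f π n)) (pushP_isSheaf _)
  let On : ShT X.toTopCat := addSh (pushP (thickening f π n)) (pushP_isSheaf _)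
  let dl : Un ⟶ On := dlogS δ' (pushP_isSheaf _)
  have hdl : pushUnits (thickening f π n) ≫ dl = dlogS (ofDerX d) X.sheaf.2 ≫ toThick f π n :=
    dlog_comp (ofDerX d) δ' (pushMap (thickening f π n)) X.sheaf.2 (pushP_isSheaf _) hδ'
  have h2' : (2 : (pushP (thickening f π n)).obj (op ⊤)) = 0 := by
    have h := congrArg ((thickening f π n).app ⊤).hom h2
    rw [map_ofNat, map_zero] at h
    exact h
  have hdl2 : dl + dl = 0 := dlog_two δ' (pushP_isSheaf _) h2'
  -- apply the comparison and the logarithmic derivative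
  let κn : HU Un (D₁ ⊔ D₂) := κ.comp (Ext.mk₀ (pushUnits (thickening f π n))) (add_zero 1)
  let νn : HU Un (D₁ ⊔ D₂) := toHU (F := Un) (D₁ ⊔ D₂) hcov N
  have e1 : del (F := Un) D₁ D₂ u = κn + (νn + νn) := by
    have h := congrArg (toHU (F := Un) (D₁ ⊔ D₂) hcov) hN
    rw [toHU_ofHU] at h
    refine h.trans ?_
    refine ((toHU (F := Un) (D₁ ⊔ D₂) hcov).map_add _ _).trans ?_
    refine congrArg₂ (· + ·) ?_ ((toHU (F := Un) (D₁ ⊔ D₂) hcov).map_add _ _)
    exact toHU_map (D₁ ⊔ D₂) hcov (pushUnits (thickening f π n)) M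
  have e2 : del (F := On) D₁ D₂ (dl.hom.app (op (D₁ ⊓ D₂)) u) =
      del (F := On) D₁ D₂ ((toThick f π n).hom.app (op (D₁ ⊓ D₂)) g) := by
    have e21 : (νn + νn).comp (Ext.mk₀ dl) (add_zero 1) = 0 := by
      rw [Ext.add_comp, ← Ext.comp_add, ← Ext.mk₀_add, hdl2, Ext.mk₀_zero, Ext.comp_zero]
    have e22 : κn.comp (Ext.mk₀ dl) (add_zero 1) = ε.comp (Ext.mk₀ (toThick f π n)) (add_zero 1) := by
      change (κ.comp (Ext.mk₀ (pushUnits (thickening f π n))) (add_zero 1)).comp (Ext.mk₀ dl)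
        (add_zero 1) = (κ.comp (Ext.mk₀ (dlogS (ofDerX d) X.sheaf.2)) (add_zero 1)).comp
          (Ext.mk₀ (toThick f π n)) (add_zero 1)
      rw [Ext.comp_assoc_of_third_deg_zero, Ext.comp_assoc_of_third_deg_zero, Ext.mk₀_comp_mk₀,
        Ext.mk₀_comp_mk₀, hdl]
    have e23 := del_map D₁ D₂ dl u
    have e24 := del_map D₁ D₂ (toThick f π n) g
    rw [← hg] at e24
    rw [← e23, ← e24, e1, Ext.add_comp, e21, e22, add_zero]
  have e3 : del (F := On) D₁ D₂ (dl.hom.app (op (D₁ ⊓ D₂)) u -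
      (toThick f π n).hom.app (op (D₁ ⊓ D₂)) g) = 0 := by
    have h := del_add (F := On) D₁ D₂ (dl.hom.app (op (D₁ ⊓ D₂)) u -
      (toThick f π n).hom.app (op (D₁ ⊓ D₂)) g) ((toThick f π n).hom.app (op (D₁ ⊓ D₂)) g)
    rw [sub_add_cancel, e2] at h
    exact left_eq_add.1 (h.trans (add_comm _ _))
  obtain ⟨a, b, hab⟩ := exists_of_del_eq_zero D₁ D₂ _ e3
  obtain ⟨α, hα⟩ := surj_thick f π n af₁ a
  obtain ⟨β, hβ⟩ := surj_thick f π n af₂ b
  let iW : Γ(X, D₁ ⊓ D₂) →+* (pushP (thickening f π n)).obj (op (D₁ ⊓ D₂)) :=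
    ((thickening f π n).app (D₁ ⊓ D₂)).hom
  have e4 : iW (G' * d.D _ G) = iW (g + rh inf_le_left α + rh inf_le_right β) := by
    have h6 : iW (G' * d.D _ G) = (-u).val * δ'.d _ u.val := by
      rw [iW.map_mul, hu', hu]
      exact congrArg (_ * ·) (hδ' (op (D₁ ⊓ D₂)) G).symm
    have h7 : (-u).val * δ'.d _ u.val - iW g =
        ((pushP (thickening f π n)).map (homOfLE (inf_le_left : D₁ ⊓ D₂ ≤ D₁)).op).hom a +
        ((pushP (thickening f π n)).map (homOfLE (inf_le_right : D₁ ⊓ D₂ ≤ D₂)).op).hom b := hab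
    have h8 : ((pushP (thickening f π n)).map (homOfLE (inf_le_left : D₁ ⊓ D₂ ≤ D₁)).op).hom a =
        iW (rh inf_le_left α) := by
      rw [← hα]
      exact (congrArg (fun ψ => ψ.hom α) ((pushMap (thickening f π n)).naturality
        (homOfLE (inf_le_left : D₁ ⊓ D₂ ≤ D₁)).op)).symm
    have h9 : ((pushP (thickening f π n)).map (homOfLE (inf_le_right : D₁ ⊓ D₂ ≤ D₂)).op).hom b =
        iW (rh inf_le_right β) := by
      rw [← hβ]
      exact (congrArg (fun ψ => ψ.hom β) ((pushMap (thickening f π n)).naturality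
        (homOfLE (inf_le_right : D₁ ⊓ D₂ ≤ D₂)).op)).symm
    rw [h8, h9] at h7
    rw [h6, iW.map_add, iW.map_add, sub_eq_iff_eq_add.1 h7]
    abel
  have e5 : iW (G' * d.D _ G - (g + rh inf_le_left α + rh inf_le_right β)) = 0 := by
    rw [iW.map_sub, e4, sub_self]
  obtain ⟨γ, hγ⟩ := ker_thick f π n af _ e5
  exact ⟨α, β, γ, sub_eq_iff_eq_add'.1 hγ⟩

end Pool.Agent.TH130
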