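import Pool.Agent.H835R5.Defs
import Pool.Agent.TH130.Inst

/-!
# MP_55d974_ag: the definitions used in the statement of the result

`X` is a scheme over `Spec A`, `π ∈ A`, and `X_n = X ×_A A/(πⁿ)` with its closed immersion
`i_n : X_n ⟶ X`. For `X` of relative dimension one the sheaf of Milnor K-groups in question is the
sheaf of units, `CH_1(X) = H^1(X, O_X^*)` is `HX X`, and `H^1(X, (i_n)_* O_{X_n}^*)` is `Hn f π n`.
-/

set_option autoImplicit false

open CategoryTheory AlgebraicGeometry TopologicalSpace Opposite Limits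
open Pool.Agent.H835R5 (unitsSheaf unitsMap pushP pushP_isSheaf pushMap)

namespace Pool.Agent.TH130

attribute [local instance high] hshT hwT hextT

/-! ### cohomology -/

/-- First cohomology of a sheaf of abelian groups on a topological space (Mathlib's `Sheaf.H`). -/
def HA {T : TopCat.{0}} (F : Sheaf (Opens.grothendieckTopology T) AddCommGrpCat.{0}) : Type :=
  Sheaf.H.{0} F 1

noncomputable instance instAddCommGroupHA {T : TopCat.{0}}
    (F : Sheaf (Opens.grothendieckTopology T) AddCommGrpCat.{0}) : AddCommGroup (HA F) :=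
  (inferInstance : AddCommGroup (Sheaf.H.{0} F 1))

/-- The map on first cohomology induced by a map of sheaves. -/
noncomputable def HA.map {T : TopCat.{0}}
    {F G : Sheaf (Opens.grothendieckTopology T) AddCommGrpCat.{0}} (f : F ⟶ G) (x : HA F) :
    HA G :=
  Sheaf.H.map f 1 x

lemma HA.map_map {T : TopCat.{0}}
    {F G H : Sheaf (Opens.grothendieckTopology T) AddCommGrpCat.{0}} (f : F ⟶ G) (g : G ⟶ H)
    (x : HA F) : HA.map g (HA.map f x) = HA.map (f ≫ g) x :=
  (Sheaf.H.map_comp_apply f g x).symm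

/-- The sheaf of abelian groups `R^*` of units of a sheaf of commutative rings `R`. -/
noncomputable def un {T : TopCat.{0}} (R : TopCat.Presheaf CommRingCat.{0} T) (h : R.IsSheaf) :
    Sheaf (Opens.grothendieckTopology T) AddCommGrpCat.{0} :=
  unitsSheaf R h

/-- The map of sheaves of units induced by a map of sheaves of rings. -/
noncomputable def un.map {T : TopCat.{0}} {R R' : TopCat.Presheaf CommRingCat.{0} T} (φ : R ⟶ R')
    (h : R.IsSheaf) (h' : R'.IsSheaf) : un R h ⟶ un R' h' :=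
  (⟨unitsMap φ⟩ : unitsSheaf R h ⟶ unitsSheaf R' h')

/-- `H^1(X, O_X^*)`. -/
def HX (X : Scheme.{0}) : Type := HA (un X.presheaf X.sheaf.2)

noncomputable instance instAddCommGroupHX (X : Scheme.{0}) : AddCommGroup (HX X) :=
  (inferInstance : AddCommGroup (HA (un X.presheaf X.sheaf.2)))

/-! ### the thickenings -/

section thick

variable {A : Type} [CommRing A] {X : Scheme.{0}} (f : X ⟶ Spec (.of A)) (π : A)

/-- The morphism `Spec A/(πⁿ) ⟶ Spec A`. -/
noncomputable def sp (π : A) (n : ℕ) :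
    Spec (.of (A ⧸ Ideal.span {π ^ n})) ⟶ Spec (.of A) :=
  Spec.map (CommRingCat.ofHom (Ideal.Quotient.mk (Ideal.span {π ^ n})))

lemma span_le (π : A) {m n : ℕ} (h : m ≤ n) : Ideal.span {π ^ n} ≤ Ideal.span {π ^ m} :=
  Ideal.span_singleton_le_span_singleton.2 (pow_dvd_pow π h)

/-- The morphism `Spec A/(πᵐ) ⟶ Spec A/(πⁿ)` for `m ≤ n`. -/
noncomputable def spTr (π : A) {m n : ℕ} (h : m ≤ n) :
    Spec (.of (A ⧸ Ideal.span {π ^ m})) ⟶ Spec (.of (A ⧸ Ideal.span {π ^ n})) :=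
  Spec.map (CommRingCat.ofHom (Ideal.Quotient.factor (span_le π h)))

lemma spTr_sp (π : A) {m n : ℕ} (h : m ≤ n) : spTr π h ≫ sp π n = sp π m := by
  unfold spTr sp
  rw [← Spec.map_comp]
  rfl

/-- The scheme `X_n = X ×_A A/(πⁿ)`. -/
noncomputable def Xn (n : ℕ) : Scheme.{0} := pullback f (sp π n)

/-- The closed immersion `i_n : X_n ⟶ X`. -/
noncomputable def inn (n : ℕ) : Xn f π n ⟶ X := pullback.fst f (sp π n)

lemma Xtr_aux {m n : ℕ} (h : m ≤ n) :
    inn f π m ≫ f = (pullback.snd f (sp π m) ≫ spTr π h) ≫ sp π n := by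
  rw [Category.assoc, spTr_sp]
  exact pullback.condition

/-- The closed immersion `X_m ⟶ X_n` for `m ≤ n`, induced by `A/(πⁿ) → A/(πᵐ)`. -/
noncomputable def Xtr {m n : ℕ} (h : m ≤ n) : Xn f π m ⟶ Xn f π n :=
  pullback.lift (inn f π m) (pullback.snd f (sp π m) ≫ spTr π h) (Xtr_aux f π h)

lemma Xtr_inn {m n : ℕ} (h : m ≤ n) : Xtr f π h ≫ inn f π n = inn f π m :=
  pullback.lift_fst _ _ _

/-- The sheaf of rings `(i_n)_* O_{X_n}` on `X`. -/
noncomputable def On (n : ℕ) : TopCat.Presheaf CommRingCat.{0} X.toTopCat := pushP (inn f π n)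

lemma On_isSheaf (n : ℕ) : (On f π n).IsSheaf := pushP_isSheaf _

/-- The map of sheaves of rings `O_X ⟶ (i_n)_* O_{X_n}`. -/
noncomputable def Ores (n : ℕ) : X.presheaf ⟶ On f π n := pushMap (inn f π n)

/-- The map of sheaves of rings `(i_n)_* O_{X_n} ⟶ (i_m)_* O_{X_m}` for `m ≤ n`. -/
noncomputable def Otr {m n : ℕ} (h : m ≤ n) : On f π n ⟶ On f π m where
  app U := (Xtr f π h).appLE (inn f π n ⁻¹ᵁ U.unop) (inn f π m ⁻¹ᵁ U.unop)
    (by rw [← Xtr_inn f π h]; exact le_rfl)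
  naturality U V k := by
    change (Xn f π n).presheaf.map _ ≫ (Xtr f π h).appLE _ _ _ =
      (Xtr f π h).appLE _ _ _ ≫ (Xn f π m).presheaf.map _
    rw [Scheme.Hom.map_appLE, Scheme.Hom.appLE_map]

/-- The group `H^1(X, (i_n)_* O_{X_n}^*)`. -/
def Hn (n : ℕ) : Type := HA (un (On f π n) (On_isSheaf f π n))

noncomputable instance instAddCommGroupHn (n : ℕ) : AddCommGroup (Hn f π n) :=
  (inferInstance : AddCommGroup (HA (un (On f π n) (On_isSheaf f π n))))

/-- The restriction map `H^1(X, O_X^*) ⟶ H^1(X, (i_n)_* O_{X_n}^*)`. -/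
noncomputable def resN (n : ℕ) (x : HX X) : Hn f π n :=
  HA.map (un.map (Ores f π n) X.sheaf.2 (On_isSheaf f π n)) x

/-- The transition map `H^1(X, (i_n)_* O_{X_n}^*) ⟶ H^1(X, (i_m)_* O_{X_m}^*)` for `m ≤ n`. -/
noncomputable def trH {m n : ℕ} (h : m ≤ n) (x : Hn f π n) : Hn f π m :=
  HA.map (un.map (Otr f π h) (On_isSheaf f π n) (On_isSheaf f π m)) x

lemma Ores_Otr {m n : ℕ} (h : m ≤ n) : Ores f π n ≫ Otr f π h = Ores f π m := by
  apply NatTrans.ext
  funext U
  change (inn f π n).app U.unop ≫ (Xtr f π h).appLE (inn f π n ⁻¹ᵁ U.unop)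
    (inn f π m ⁻¹ᵁ U.unop) _ = (inn f π m).app U.unop
  have h1 := Scheme.Hom.appLE_comp_appLE (Xtr f π h) (inn f π n) U.unop (inn f π n ⁻¹ᵁ U.unop)
    (inn f π m ⁻¹ᵁ U.unop) le_rfl (by rw [← Xtr_inn f π h]; exact le_rfl)
  rw [Scheme.Hom.app_eq_appLE, h1, Scheme.Hom.app_eq_appLE]
  simp only [Xtr_inn]

lemma trH_resN {m n : ℕ} (h : m ≤ n) (L : HX X) : trH f π h (resN f π n L) = resN f π m L := by
  refine (HA.map_map _ _ L).trans ?_
  have h1 : un.map (Ores f π n) X.sheaf.2 (On_isSheaf f π n) ≫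
      un.map (Otr f π h) (On_isSheaf f π n) (On_isSheaf f π m) =
      un.map (Ores f π m) X.sheaf.2 (On_isSheaf f π m) := by
    rw [← Ores_Otr f π h]
    rfl
  rw [h1]
  rfl

end thick

/-! ### the restriction maps -/

section res

variable {A : Type} [CommRing A] {X : Scheme.{0}} (f : X ⟶ Spec (.of A)) (π : A)

/-- The family `(ℓ_n)` is an element of `lim_n H^1(X, (i_n)_* O_{X_n}^*)`. (The limit is over all
`n ≥ 0`; this is the limit over `n ≥ 1` as `X_0` is empty.) -/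
def IsLim (ℓ : ∀ n : ℕ, Hn f π n) : Prop :=
  ∀ (m n : ℕ) (h : m ≤ n), trH f π h (ℓ n) = ℓ m

/-- The restriction map `H^1(X, O_X^*)/N ⟶ (lim_n H^1(X, (i_n)_* O_{X_n}^*))/N` is surjective:
every `ℓ` in the limit is, up to `N` times an element `ν` of the limit, the restriction of some
`M`. -/
def SurjModLim (N : ℕ) : Prop :=
  ∀ ℓ : ∀ n : ℕ, Hn f π n, IsLim f π ℓ →
    ∃ (M : HX X) (ν : ∀ n : ℕ, Hn f π n), IsLim f π ν ∧ ∀ n, ℓ n = resN f π n M + N • ν n

/-- The restriction map `H^1(X, O_X^*)/N ⟶ lim_n (H^1(X, (i_n)_* O_{X_n}^*)/N)` is surjective: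
every family `ℓ` that is compatible modulo `N` is congruent modulo `N` to the restrictions of some
`M`. -/
def SurjLimMod (N : ℕ) : Prop :=
  ∀ ℓ : ∀ n : ℕ, Hn f π n, (∀ (m n : ℕ) (h : m ≤ n), ∃ ν : Hn f π m,
      trH f π h (ℓ n) = ℓ m + N • ν) →
    ∃ M : HX X, ∀ n, ∃ ν : Hn f π n, ℓ n = resN f π n M + N • ν

end res

end Pool.Agent.TH130
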