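import Pool.Agent.TH130.ResMain

/-!
# MP_55d974_ag: the final assembly
-/

set_option autoImplicit false

open CategoryTheory AlgebraicGeometry TopologicalSpace Opposite Limits
open Pool.Agent.H835R5
open Pool.Agent.Helper198.Sch

namespace Pool.Agent.TH130

attribute [local instance] MvPolynomial.gradedAlgebra

lemma two_pow_smul {G : Type} [AddCommGroup G] {r : ℕ} (hr : 1 ≤ r) (a : G) :
    ∃ b : G, (2 ^ r) • a = b + b := by
  obtain ⟨s, rfl⟩ : ∃ s, r = s + 1 := ⟨r - 1, by omega⟩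
  exact ⟨(2 ^ s) • a, by rw [pow_succ, mul_comm, mul_nsmul', two_nsmul]⟩

/-- the main result -/
theorem main : ∃ (A : Type) (_ : CommRing A) (_ : IsDomain A) (_ : IsDiscreteValuationRing A)
    (_ : HenselianLocalRing A) (π : A) (X : Scheme.{0}) (f : X ⟶ Spec (.of A)),
    Irreducible π ∧ CharP A 2 ∧ CharP (IsLocalRing.ResidueField A) 2 ∧ IsIntegral X ∧
      SmoothOfRelativeDimension 1 f ∧ IsProjOver f ∧
      ∀ r : ℕ, 1 ≤ r → ¬ SurjModLim f π (2 ^ r) ∧ ¬ SurjLimMod f π (2 ^ r) := by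
  have hE := taskEC Pool.Agent.H87R3.KZ.taskCh taskDom taskCov taskCmp AA
  obtain ⟨ℓ, hl, hℓ⟩ := main_core (strE AA) hE
  refine ⟨AA, inferInstance, inferInstance, inferInstance, inferInstance, tt, XE AA, strE AA,
    tt_irreducible, inferInstance, charP_res, hE.int,
    taskSm Pool.Agent.H87R3.KZ.taskCh taskCov AA,
    ⟨2, emb (JE AA) (Equiv.refl _), inferInstance, emb_str _ _⟩, ?_⟩
  intro r hr
  refine ⟨?_, ?_⟩
  · intro h
    obtain ⟨M, ν, -, hν⟩ := h ℓ hl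
    obtain ⟨n, hn⟩ := hℓ M
    obtain ⟨N', hN'⟩ := two_pow_smul hr (ν n)
    exact hn N' (by rw [← hN']; exact hν n)
  · intro h
    obtain ⟨M, hM⟩ := h ℓ (fun m n hmn => ⟨0, by rw [hl m n hmn, smul_zero, add_zero]⟩)
    obtain ⟨n, hn⟩ := hℓ M
    obtain ⟨ν, hν⟩ := hM n
    obtain ⟨N', hN'⟩ := two_pow_smul hr ν
    exact hn N' (by rw [← hN']; exact hν)

end Pool.Agent.TH130
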