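import Pool.Agent.TH130.Per

/-!
# MP_55d974_ag: the elements of the base ring used in the argument
-/

set_option autoImplicit false

open Polynomial

namespace Pool.Agent.TH130

lemma frob_pow (m : ℕ) (y : kk) : (frobenius kk 2 ^ m) y = y ^ (2 ^ m) := by
  induction m generalizing y with
  | zero => simp
  | succ m ih =>
    rw [pow_succ, RingHom.mul_def, RingHom.comp_apply, ih, frobenius_def, ← pow_mul, ← pow_succ']

lemma natCast_pow (m N : ℕ) : ((m : ℕ) : kk) ^ (2 ^ N) = m := by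
  rw [← frob_pow, map_natCast]

lemma deriv_mem {f : PowerSeries kk} (hf : f ∈ AA) : PowerSeries.derivative kk f ∈ AA := by
  rw [mem_AA] at hf ⊢
  obtain ⟨n, hn, h⟩ := hf
  refine ⟨n, hn, fun i => ?_⟩
  rw [PowerSeries.coeff_derivative, mul_pow, h]
  congr 1
  have := natCast_pow (i + 1) n
  push_cast at this
  exact this

/-- the derivation `d/dt` of `A` -/
noncomputable def dAA : Derivation ℤ AA AA :=
  Derivation.mk' (AddMonoidHom.toIntLinearMap
    { toFun := fun f => ⟨PowerSeries.derivative kk (f : PowerSeries kk), deriv_mem f.2⟩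
      map_zero' := Subtype.ext (map_zero _)
      map_add' := fun _ _ => Subtype.ext (map_add _ _ _) })
    (fun a b => Subtype.ext ((PowerSeries.derivative kk).leibniz (a : PowerSeries kk) b))

lemma coe_dAA (f : AA) : ((dAA f : AA) : PowerSeries kk) =
    PowerSeries.derivative kk (f : PowerSeries kk) := rfl

/-- constants -/
noncomputable def cAA (c : kk) : AA := ⟨PowerSeries.C c, by
  have := poly_mem (Polynomial.C c)
  rwa [Polynomial.coe_C] at this⟩

lemma coe_cAA (c : kk) : ((cAA c : AA) : PowerSeries kk) = PowerSeries.C c := rfl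

lemma coe_tt : ((tt : AA) : PowerSeries kk) = PowerSeries.X := rfl

lemma two_AA : (2 : AA) = 0 := by
  have := CharP.cast_eq_zero AA 2
  exact_mod_cast this

lemma exists_zeta : ∃ ζ : ℕ → kk, ∀ N, 0 < N → (ζ N) ^ (2 ^ N) ≠ ζ N := by
  classical
  have h : ∀ N : ℕ, ∃ z : kk, 0 < N → z ^ (2 ^ N) ≠ z := by
    intro N
    by_cases hN : 0 < N
    · have h1 : (X ^ (2 ^ N) - X : kk[X]) ≠ 0 := by
        apply FiniteField.X_pow_card_pow_sub_X_ne_zero kk hN.ne' (by norm_num)
      obtain ⟨z, hz⟩ := Infinite.exists_notMem_finset (X ^ (2 ^ N) - X : kk[X]).roots.toFinset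
      refine ⟨z, fun _ h2 => hz ?_⟩
      rw [Multiset.mem_toFinset, mem_roots h1, IsRoot.def, eval_sub, eval_pow, eval_X, h2, sub_self]
    · exact ⟨0, fun h => absurd h hN⟩
  exact ⟨fun N => (h N).choose, fun N => (h N).choose_spec⟩

/-- the elements `s_n` -/
noncomputable def sS (ζ : ℕ → kk) (n : ℕ) : AA :=
  ∑ j ∈ Finset.range n, cAA (ζ j) * tt ^ (2 * j + 1)

lemma dAA_tt_pow (j : ℕ) : dAA (tt ^ (2 * j + 1)) = tt ^ (2 * j) := by
  apply Subtype.ext
  rw [coe_dAA]
  change PowerSeries.derivative kk ((PowerSeries.X : PowerSeries kk) ^ (2 * j + 1)) =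
    (PowerSeries.X : PowerSeries kk) ^ (2 * j)
  ext n
  rw [PowerSeries.coeff_derivative]
  simp only [PowerSeries.coeff_X_pow]
  by_cases h : n = 2 * j
  · subst h
    simp only [if_true, one_mul]
    push_cast
    have h2 : (2 : kk) = 0 := by
      have := CharP.cast_eq_zero kk 2
      exact_mod_cast this
    rw [h2]
    ring
  · have h' : n + 1 ≠ 2 * j + 1 := by omega
    simp [h]

lemma dAA_cAA (c : kk) : dAA (cAA c) = 0 := by
  apply Subtype.ext
  rw [coe_dAA, coe_cAA]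
  ext n
  rw [PowerSeries.coeff_derivative, PowerSeries.coeff_C]
  simp

lemma dAA_even (j : ℕ) : dAA (tt ^ (2 * j)) = 0 := by
  have h : (tt ^ (2 * j) : AA) = tt ^ j * tt ^ j := by rw [← pow_add]; congr 1; ring
  rw [h, Derivation.leibniz]
  have h2 := two_AA
  simp only [smul_eq_mul]
  linear_combination (tt ^ j * dAA (tt ^ j)) * h2

lemma dAA_sS (ζ : ℕ → kk) (n : ℕ) : dAA (sS ζ n) = ∑ j ∈ Finset.range n, cAA (ζ j) * tt ^ (2 * j) := by
  rw [sS, map_sum]
  refine Finset.sum_congr rfl fun j _ => ?_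
  rw [Derivation.leibniz, dAA_cAA, dAA_tt_pow, smul_zero, add_zero, smul_eq_mul]

lemma coeff_dAA_sS (ζ : ℕ → kk) {n j : ℕ} (h : j < n) :
    PowerSeries.coeff (2 * j) ((dAA (sS ζ n) : AA) : PowerSeries kk) = ζ j := by
  rw [dAA_sS]
  have h1 : ((∑ j ∈ Finset.range n, cAA (ζ j) * tt ^ (2 * j) : AA) : PowerSeries kk) =
      ∑ j ∈ Finset.range n, PowerSeries.C (ζ j) * (PowerSeries.X : PowerSeries kk) ^ (2 * j) := by
    have := map_sum AA.subtype (fun j => cAA (ζ j) * tt ^ (2 * j)) (Finset.range n)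
    exact this
  rw [h1, map_sum, Finset.sum_eq_single j]
  · rw [PowerSeries.coeff_C_mul, PowerSeries.coeff_X_pow, if_pos rfl, mul_one]
  · intro i _ hij
    rw [PowerSeries.coeff_C_mul, PowerSeries.coeff_X_pow, if_neg (by omega), mul_zero]
  · intro hj
    exact absurd (Finset.mem_range.2 h) hj

lemma tt_dvd_sS (ζ : ℕ → kk) (n : ℕ) : tt ∣ sS ζ n :=
  Finset.dvd_sum fun j _ => Dvd.dvd.mul_left (dvd_pow_self _ (by omega)) _

lemma sS_sub (ζ : ℕ → kk) {m n : ℕ} (h : m ≤ n) : tt ^ m ∣ sS ζ n - sS ζ m := by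
  have h1 : sS ζ n - sS ζ m = ∑ j ∈ Finset.Ico m n, cAA (ζ j) * tt ^ (2 * j + 1) := by
    rw [sS, sS, Finset.sum_Ico_eq_sub _ h]
  rw [h1]
  refine Finset.dvd_sum fun j hj => Dvd.dvd.mul_left (pow_dvd_pow _ ?_) _
  have := (Finset.mem_Ico.1 hj).1
  omega

/-- the contradiction -/
lemma no_period (ζ : ℕ → kk) (hζ : ∀ N, 0 < N → (ζ N) ^ (2 ^ N) ≠ ζ N) (a : AA)
    (h : ∀ j : ℕ, ∃ b : AA, dAA (sS ζ (2 * j + 2)) = a + tt ^ (2 * j + 2) * b) : False := by
  obtain ⟨N, hN, ha⟩ := mem_AA.1 a.2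
  have key : PowerSeries.coeff (2 * N) (a : PowerSeries kk) = ζ N := by
    obtain ⟨b, hb⟩ := h N
    have h1 := congrArg (fun x : AA => PowerSeries.coeff (2 * N) (x : PowerSeries kk)) hb
    rw [coeff_dAA_sS ζ (by omega)] at h1
    have h2 : ((a + tt ^ (2 * N + 2) * b : AA) : PowerSeries kk) =
        (a : PowerSeries kk) + (PowerSeries.X : PowerSeries kk) ^ (2 * N + 2) * (b : PowerSeries kk) :=
      rfl
    rw [h2, map_add, PowerSeries.coeff_X_pow_mul', if_neg (by omega), add_zero] at h1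
    exact h1.symm
  apply hζ N hN
  rw [← key, ha]

end Pool.Agent.TH130
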