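import Pool.Agent.TH130.ResCore
import Pool.Agent.TH130.ResNum
import Pool.Agent.TH130.Lam
import Pool.Agent.TH130.Der
import Pool.Agent.H835R5.Stmts2
import Pool.Agent.H87R3.KZ.Ch
import Pool.Agent.H835R5.T.Dom
import Pool.Agent.H835R5.T.CovSm
import Pool.Agent.H835R5.T.Cmp
import Pool.Agent.H835R5.T.EC

/-!
# MP_55d974_ag: the main argument
-/

set_option autoImplicit false

open CategoryTheory AlgebraicGeometry TopologicalSpace Opposite Limits Abelian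
open Pool.Agent.H835R5
open Pool.Agent.H835R5.Spl (rh rs_eq rh_rh rh_cst)
open Pool.Agent.Helper198.Sch

namespace Pool.Agent.TH130

attribute [local instance high] hshT hwT hextT

/-! ### the units -/

section units

variable {A : Type} [CommRing A] {X : Scheme.{0}} (f : X ⟶ Spec (.of A)) (π : A) (W : X.Opens)

/-- `1 + s h` is a unit on the thickening, for `s` divisible by `π`. -/
lemma exists_unit (h2 : (2 : A) = 0) (s : A) (hs : π ∣ s) (h : Γ(X, W)) (n : ℕ) :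
    ∃ u : UnitsOn (pushP (thickening f π n)) (op W),
      u.val = ((thickening f π n).app W).hom (1 + cst (cF f) W s * h) ∧
      (-u).val = ((thickening f π n).app W).hom
        (∑ k ∈ Finset.range n, (cst (cF f) W s * h) ^ k) := by
  let iW : Γ(X, W) →+* (pushP (thickening f π n)).obj (op W) := ((thickening f π n).app W).hom
  have h2' : (2 : Γ(X, W)) = 0 := by
    have := congrArg (cst (cF f) W) h2
    rwa [map_ofNat, map_zero] at this
  set v : Γ(X, W) := cst (cF f) W s * h with hv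
  have h3 : (1 + v) * (∑ k ∈ Finset.range n, v ^ k) = 1 - v ^ n := by
    have h4 := mul_neg_geom_sum v n
    rw [← h4]
    linear_combination (v * ∑ k ∈ Finset.range n, v ^ k) * h2'
  have h5 : iW (v ^ n) = 0 := by
    obtain ⟨b, hb⟩ := hs
    have h6 : v ^ n = cst (cF f) W (π ^ n) * (cst (cF f) W (b ^ n) * h ^ n) := by
      rw [hv, hb, mul_pow, ← map_pow, mul_pow, map_mul, mul_assoc]
    rw [h6, iW.map_mul]
    have h7 : iW (cst (cF f) W (π ^ n)) = 0 := thick_cst f π n W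
    rw [h7, zero_mul]
  have h8 : iW (1 + v) * iW (∑ k ∈ Finset.range n, v ^ k) = 1 := by
    rw [← iW.map_mul, h3, iW.map_sub, iW.map_one, h5, sub_zero]
  let u : ((pushP (thickening f π n)).obj (op W))ˣ :=
    ⟨iW (1 + v), iW (∑ k ∈ Finset.range n, v ^ k), h8, by rw [mul_comm]; exact h8⟩
  exact ⟨(show UnitsOn (pushP (thickening f π n)) (op W) from Additive.ofMul u), rfl, rfl⟩

end units

/-- the class of a unit over the intersection of two opens covering `X` -/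
noncomputable def cls {A : Type} [CommRing A] {X : Scheme.{0}} (f : X ⟶ Spec (.of A)) (π : A)
    (D₁ D₂ : X.Opens) (hcov : D₁ ⊔ D₂ = ⊤) (n : ℕ)
    (u : UnitsOn (pushP (thickening f π n)) (op (D₁ ⊓ D₂))) : Hn f π n :=
  ofHU (F := unitsSheaf (pushP (thickening f π n)) (pushP_isSheaf _)) (D₁ ⊔ D₂) hcov (del D₁ D₂ u)

lemma trH_cls {A : Type} [CommRing A] {X : Scheme.{0}} (f : X ⟶ Spec (.of A)) (π : A)
    (D₁ D₂ : X.Opens) (hcov : D₁ ⊔ D₂ = ⊤) {m n : ℕ} (h : m ≤ n)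
    (u : UnitsOn (pushP (thickening f π n)) (op (D₁ ⊓ D₂)))
    (v : UnitsOn (pushP (thickening f π m)) (op (D₁ ⊓ D₂)))
    (G G' : Γ(X, D₁ ⊓ D₂)) (hu : u.val = ((thickening f π n).app (D₁ ⊓ D₂)).hom G)
    (hv : v.val = ((thickening f π m).app (D₁ ⊓ D₂)).hom G')
    (hG : ((thickening f π m).app (D₁ ⊓ D₂)).hom G = ((thickening f π m).app (D₁ ⊓ D₂)).hom G') :
    trH f π h (cls f π D₁ D₂ hcov n u) = cls f π D₁ D₂ hcov m v := by
  let Un := unitsSheaf (pushP (thickening f π n)) (pushP_isSheaf _)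
  let Um := unitsSheaf (pushP (thickening f π m)) (pushP_isSheaf _)
  let φ : Un ⟶ Um := un.map (Otr f π h) (On_isSheaf f π n) (On_isSheaf f π m)
  have h1 := map_ofHU (F := Un) (G := Um) (D₁ ⊔ D₂) hcov φ (del D₁ D₂ u)
  refine h1.trans ?_
  rw [del_map]
  have h2 : φ.hom.app (op (D₁ ⊓ D₂)) u = v := by
    apply UnitsOn.val_inj
    refine Eq.trans ?_ (hG.trans hv.symm)
    have h3 : ((Otr f π h).app (op (D₁ ⊓ D₂))).hom u.val =
        ((thickening f π m).app (D₁ ⊓ D₂)).hom G := by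
      rw [hu]
      exact congrArg (fun ψ : X.presheaf ⟶ On f π m =>
        (ψ.app (op (D₁ ⊓ D₂))).hom G) (Ores_Otr f π h)
    exact h3
  rw [h2]
  rfl

/-- **The main point**: for the curve over `A` there is a compatible family of classes on the
thickenings that is not congruent modulo `2` to the restrictions of a class on the curve. -/
theorem main_core {X : Scheme.{0}} (f : X ⟶ Spec (.of AA)) {D₁ D₂ : X.Opens} {z w : Γ(X, D₁)}
    {x y : Γ(X, D₂)} (hE : EC X (cF f) D₁ D₂ z w x y) :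
    ∃ ℓ : ∀ n, Hn f tt n, IsLim f tt ℓ ∧ ∀ M : HX X, ∃ n : ℕ, ∀ N : Hn f tt n,
      ℓ n ≠ resN f tt n M + (N + N) := by
  obtain ⟨ζ, hζ⟩ := exists_zeta
  obtain ⟨μ, hμs, hμ1, hμ2, hμf, hμk⟩ := exists_lam two_AA hE
  obtain ⟨d, hd, hdx, hdy⟩ := exists_DerX two_AA dAA hE
  set F : Γ(X, (D₁ ⊓ D₂)) := (rh inf_le_right x) ^ 2 * rh inf_le_left w with hF
  have hcov := hE.cov
  have haf : IsAffineOpen (D₁ ⊓ D₂) := by
    rw [← hE.bo₂]
    exact hE.af₂.basicOpen y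
  -- `F` is killed by the derivation
  have hdx' : d.D (D₁ ⊓ D₂) (rh inf_le_right x) = 0 := by
    have h := d.res D₂ (D₁ ⊓ D₂) inf_le_right x
    rw [hdx] at h
    rw [← rs_eq, ← h]
    exact map_zero _
  have hdy' : d.D (D₁ ⊓ D₂) (rh inf_le_right y) = 0 := by
    have h := d.res D₂ (D₁ ⊓ D₂) inf_le_right y
    rw [hdy] at h
    rw [← rs_eq, ← h]
    exact map_zero _
  have hd1 : d.D (D₁ ⊓ D₂) 1 = 0 := by
    have h := d.leib (D₁ ⊓ D₂) 1 1
    rw [one_mul, one_mul] at h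
    exact left_eq_add.1 h
  have hwy : rh (inf_le_left : (D₁ ⊓ D₂) ≤ D₁) w * rh (inf_le_right : (D₁ ⊓ D₂) ≤ D₂) y = 1 := hE.cmpw
  have hdw : d.D (D₁ ⊓ D₂) (rh inf_le_left w) = 0 := by
    have h := d.leib (D₁ ⊓ D₂) (rh inf_le_left w) (rh inf_le_right y)
    rw [hwy, hd1, hdy', mul_zero, zero_add] at h
    have h3 : rh (inf_le_left : (D₁ ⊓ D₂) ≤ D₁) w *
        (rh (inf_le_right : (D₁ ⊓ D₂) ≤ D₂) y * d.D (D₁ ⊓ D₂) (rh inf_le_left w)) = 0 := by rw [← h, mul_zero]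
    rw [← mul_assoc, hwy, one_mul] at h3
    exact h3
  have hdF : d.D (D₁ ⊓ D₂) F = 0 := by
    rw [hF, d.leib, pow_two, d.leib, hdx', hdw]
    ring
  choose u hu hu' using fun n => exists_unit f tt (D₁ ⊓ D₂) two_AA (sS ζ n) (tt_dvd_sS ζ n) F n
  let ℓ : ∀ n, Hn f tt n := fun n => cls f tt D₁ D₂ hcov n (u n)
  have hℓ : IsLim f tt ℓ := by
    intro m n h
    refine trH_cls f tt D₁ D₂ hcov h (u n) (u m) _ _ (hu n) (hu m) ?_
    let iW : Γ(X, (D₁ ⊓ D₂)) →+* (pushP (thickening f tt m)).obj (op (D₁ ⊓ D₂)) :=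
      ((thickening f tt m).app (D₁ ⊓ D₂)).hom
    obtain ⟨b, hb⟩ := sS_sub ζ h
    have h4 : (1 + cst (cF f) (D₁ ⊓ D₂) (sS ζ n) * F) = (1 + cst (cF f) (D₁ ⊓ D₂) (sS ζ m) * F) +
        cst (cF f) (D₁ ⊓ D₂) (tt ^ m) * (cst (cF f) (D₁ ⊓ D₂) b * F) := by
      have h5 : sS ζ n = sS ζ m + tt ^ m * b := by rw [← hb]; ring
      rw [h5, map_add, map_mul]
      ring
    have h6 : iW (cst (cF f) (D₁ ⊓ D₂) (tt ^ m)) = 0 := thick_cst f tt m (D₁ ⊓ D₂)
    change iW (1 + cst (cF f) (D₁ ⊓ D₂) (sS ζ n) * F) = iW (1 + cst (cF f) (D₁ ⊓ D₂) (sS ζ m) * F)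
    rw [h4, iW.map_add, iW.map_mul, h6, zero_mul, add_zero]
  refine ⟨ℓ, hℓ, ?_⟩
  intro M
  by_contra hcon
  push Not at hcon
  have h2X : (2 : Γ(X, ⊤)) = 0 := by
    have h := congrArg (cF f) two_AA
    simpa only [map_ofNat, map_zero] using h
  obtain ⟨g, hg⟩ := key_compare f tt D₁ D₂ hcov hE.af₁ hE.af₂ haf h2X d M
  refine no_period ζ hζ (μ g) ?_
  intro j
  obtain ⟨N, hN⟩ := hcon (2 * j + 1 + 1)
  have hdt : ∀ U : X.Opens, d.D U (cst (cF f) U (tt ^ (2 * j + 1 + 1))) = 0 := by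
    intro U
    have h : 2 * j + 1 + 1 = 2 * (j + 1) := by ring
    rw [hd, h, dAA_even, map_zero]
  obtain ⟨α, β, γ, hγ⟩ := hg (2 * j + 1 + 1) hdt _ _ (u (2 * j + 1 + 1)) (hu _) (hu' _) N hN
  refine ⟨μ γ, ?_⟩
  have h7 := congrArg μ hγ
  rw [μ.map_add, μ.map_add, μ.map_add, hμ1, hμ2, hμs, add_zero, add_zero] at h7
  refine Eq.trans ?_ h7
  -- compute the left hand side
  set s : AA := sS ζ (2 * j + 1 + 1) with hs
  have h8 : d.D (D₁ ⊓ D₂) (1 + cst (cF f) (D₁ ⊓ D₂) s * F) = cst (cF f) (D₁ ⊓ D₂) (dAA s) * F := by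
    rw [map_add, hd1, zero_add, d.leib, hdF, hd, mul_zero, zero_add, mul_comm]
  have h9 : (∑ k ∈ Finset.range (2 * j + 1 + 1), (cst (cF f) (D₁ ⊓ D₂) s * F) ^ k) *
      d.D (D₁ ⊓ D₂) (1 + cst (cF f) (D₁ ⊓ D₂) s * F) = ∑ k ∈ Finset.range (2 * j + 1 + 1),
        cst (cF f) (D₁ ⊓ D₂) (s ^ k * dAA s) * F ^ (k + 1) := by
    rw [h8, Finset.sum_mul]
    refine Finset.sum_congr rfl fun k _ => ?_
    rw [mul_pow, map_mul, map_pow]
    ring
  rw [h9, map_sum, Finset.sum_range_succ']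
  have h10 : ∀ k ∈ Finset.range (2 * j + 1), μ (cst (cF f) (D₁ ⊓ D₂) (s ^ (k + 1) * dAA s) *
      F ^ (k + 1 + 1)) = 0 := by
    intro k _
    rw [hμs, hμk, mul_zero]
  rw [Finset.sum_eq_zero h10, hμs, zero_add, pow_one, hμf, pow_zero, one_mul, mul_one]

end Pool.Agent.TH130
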